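import Pool.Agent.H882R2.Normal

/-! The total positive curvature argument. -/

set_option autoImplicit false

open scoped RealInnerProductSpace Topology ContDiff
open MeasureTheory Metric Set

namespace H882R2

open H575Germ (E2 pd)

theorem disc_nonneg {A B C : ℝ} (h : ∀ α β : ℝ, A * α ^ 2 + 2 * B * (α * β) + C * β ^ 2 ≤ 0) :
    0 ≤ A * C - B ^ 2 := by
  have hA := h 1 0
  have h1 := h (-B) A
  have h2 := h (-(C + 1) * B) 1
  rcases (show A ≤ 0 by nlinarith).lt_or_eq with hlt | heq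
  · by_contra hc
    push Not at hc
    nlinarith [mul_pos_of_neg_of_neg hlt hc]
  · subst heq
    have h3 := h (B * (1 - C)) 1
    have h4 := h (B * (-C)) 1
    have h5 := h (B * 100) 1
    have h6 : ∀ k : ℝ, 2 * B ^ 2 * k + C ≤ 0 := fun k => by
      have := h (B * k) 1
      nlinarith
    by_contra hc
    push Not at hc
    have hB : 0 < B ^ 2 := by nlinarith
    have := h6 ((1 - C) / (2 * B ^ 2))
    rw [mul_div_cancel₀ _ (by positivity)] at this
    linarith

/-- second derivative test -/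
theorem second_test {φ : ℝ → ℝ} (hφ : ContDiff ℝ 2 φ) (hmax : ∀ t, φ t ≤ φ 0) :
    deriv (deriv φ) 0 ≤ 0 := by
  by_contra hc
  push Not at hc
  have h0 : deriv φ 0 = 0 := IsLocalMax.deriv_eq_zero (Filter.Eventually.of_forall hmax)
  have h1 := isLocalMin_of_deriv_deriv_pos hc h0 hφ.continuous.continuousAt
  have h2 : φ =ᶠ[𝓝 0] fun _ => φ 0 := by
    filter_upwards [h1] with t ht
    exact le_antisymm (hmax t) ht
  have h3 : deriv φ =ᶠ[𝓝 0] fun _ => 0 := by
    have := h2.deriv
    simpa using this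
  rw [h3.deriv_eq] at hc
  simp at hc

theorem pd_line {F : Type*} [NormedAddCommGroup F] [NormedSpace ℝ F] {h : E2 → F}
    (hd : Differentiable ℝ h) (x : E2) (α β t : ℝ) :
    HasDerivAt (fun t : ℝ => h (x + t • (α • EuclideanSpace.single 0 1 +
      β • EuclideanSpace.single 1 1)))
      (α • pd 0 h (x + t • (α • EuclideanSpace.single 0 1 + β • EuclideanSpace.single 1 1)) +
       β • pd 1 h (x + t • (α • EuclideanSpace.single 0 1 + β • EuclideanSpace.single 1 1))) t := by
  set w : E2 := α • EuclideanSpace.single 0 1 + β • EuclideanSpace.single 1 1 with hw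
  have h1 : HasDerivAt (fun t : ℝ => x + t • w) w t := by
    have := ((hasDerivAt_id t).smul_const w).const_add x
    simpa using this
  have h2 := (hd (x + t • w)).hasFDerivAt.comp_hasDerivAt t h1
  refine h2.congr_deriv ?_
  conv_lhs => rw [hw]
  rw [map_add, map_smul, map_smul]
  rfl

/-- first and second order conditions at a maximum of a height function -/
theorem height {f : E2 → E3} (hf : ContDiff ℝ 2 f) (ν : E3) (x : E2)
    (hmax : ∀ q, ⟪f q, ν⟫ ≤ ⟪f x, ν⟫) :
    ⟪pd 0 f x, ν⟫ = 0 ∧ ⟪pd 1 f x, ν⟫ = 0 ∧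
    0 ≤ ⟪pd 0 (pd 0 f) x, ν⟫ * ⟪pd 1 (pd 1 f) x, ν⟫ - ⟪pd 0 (pd 1 f) x, ν⟫ ^ 2 := by
  have hd : Differentiable ℝ f := hf.differentiable (by simp)
  have hpd : ∀ i, Differentiable ℝ (pd i f) := fun i => by
    have h : ContDiff ℝ (((1 : ℕ) + 1 : ℕ)) f := by exact_mod_cast hf
    have := H575Germ.contDiff_pd 1 i f (by exact_mod_cast h)
    exact this.differentiable (by simp)
  have key : ∀ (g : E2 → E3), Differentiable ℝ g → ∀ α β t : ℝ,
      HasDerivAt (fun t : ℝ => ⟪g (x + t • (α • EuclideanSpace.single 0 1 +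
        β • EuclideanSpace.single 1 1)), ν⟫)
      (α * ⟪pd 0 g (x + t • (α • EuclideanSpace.single 0 1 + β • EuclideanSpace.single 1 1)), ν⟫ +
       β * ⟪pd 1 g (x + t • (α • EuclideanSpace.single 0 1 + β • EuclideanSpace.single 1 1)), ν⟫)
      t := by
    intro g hg α β t
    have h1 := (pd_line hg x α β t).inner ℝ (hasDerivAt_const t ν)
    refine h1.congr_deriv ?_
    rw [inner_zero_right, zero_add, inner_add_left, real_inner_smul_left, real_inner_smul_left]
  have first : ∀ α β : ℝ, α * ⟪pd 0 f x, ν⟫ + β * ⟪pd 1 f x, ν⟫ = 0 := by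
    intro α β
    have h1 := key f hd α β 0
    have h2 : IsLocalMax (fun t : ℝ => ⟪f (x + t • (α • EuclideanSpace.single 0 1 +
        β • EuclideanSpace.single 1 1)), ν⟫) 0 := by
      refine Filter.Eventually.of_forall fun t => ?_
      simp only [zero_smul, add_zero]
      exact hmax _
    have h3 := h2.hasDerivAt_eq_zero h1
    simpa using h3
  refine ⟨by simpa using first 1 0, by simpa using first 0 1, disc_nonneg fun α β => ?_⟩
  have hφ : ContDiff ℝ 2 (fun t : ℝ => ⟪f (x + t • (α • EuclideanSpace.single 0 1 +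
        β • EuclideanSpace.single 1 1)), ν⟫) :=
    (hf.comp (by fun_prop)).inner ℝ contDiff_const
  have h2 := second_test hφ fun t => by
    simp only [zero_smul, add_zero]
    exact hmax _
  have h3 : deriv (fun t : ℝ => ⟪f (x + t • (α • EuclideanSpace.single 0 1 +
        β • EuclideanSpace.single 1 1)), ν⟫) = fun t =>
      α * ⟪pd 0 f (x + t • (α • EuclideanSpace.single 0 1 + β • EuclideanSpace.single 1 1)), ν⟫ +
       β * ⟪pd 1 f (x + t • (α • EuclideanSpace.single 0 1 + β • EuclideanSpace.single 1 1)), ν⟫ :=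
    funext fun t => (key f hd α β t).deriv
  rw [h3] at h2
  have h4 := ((key (pd 0 f) (hpd 0) α β 0).const_mul α).add
    ((key (pd 1 f) (hpd 1) α β 0).const_mul β)
  rw [show (fun t : ℝ =>
      α * ⟪pd 0 f (x + t • (α • EuclideanSpace.single 0 1 + β • EuclideanSpace.single 1 1)), ν⟫ +
       β * ⟪pd 1 f (x + t • (α • EuclideanSpace.single 0 1 + β • EuclideanSpace.single 1 1)), ν⟫) =
      ((fun t : ℝ => α * ⟪pd 0 f (x + t • (α • EuclideanSpace.single 0 1 +
        β • EuclideanSpace.single 1 1)), ν⟫) + fun t : ℝ =>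
       β * ⟪pd 1 f (x + t • (α • EuclideanSpace.single 0 1 + β • EuclideanSpace.single 1 1)), ν⟫)
      from rfl, h4.deriv] at h2
  simp only [zero_smul, add_zero] at h2
  rw [H575Germ.pd_comm 1 0 f hf] at h2
  linarith

/-- projection to the parameter plane -/
noncomputable def prL : E3 →L[ℝ] E2 :=
  LinearMap.toContinuousLinearMap
    { toFun := fun y => !₂[y 0, y 1]
      map_add' := fun a b => by ext i; fin_cases i <;> simp
      map_smul' := fun c a => by ext i; fin_cases i <;> simp }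

theorem prL_apply (y : E3) : prL y = !₂[y 0, y 1] := rfl

theorem prL_0 : prL (EuclideanSpace.single 0 1) = EuclideanSpace.single 0 1 := by
  rw [prL_apply]; ext i; fin_cases i <;> simp

theorem prL_1 : prL (EuclideanSpace.single 1 1) = EuclideanSpace.single 1 1 := by
  rw [prL_apply]; ext i; fin_cases i <;> simp

theorem prL_2 : prL (EuclideanSpace.single 2 1) = 0 := by
  rw [prL_apply]; ext i; fin_cases i <;> simp

/-- the cone map over the normal map, with a sign -/
noncomputable def Phi (R s r : ℝ) (f : E2 → E3) (σ : ℝ) (y : E3) : E3 :=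
  (σ * y 2) • nn R s r f (prL y)

section
variable {R s r : ℝ} {f : E2 → E3}

/-- derivative of the cone map -/
noncomputable def dPhi (R s r : ℝ) (f : E2 → E3) (σ : ℝ) (y : E3) : E3 →L[ℝ] E3 :=
  (σ * y 2) • (fderiv ℝ (nn R s r f) (prL y)).comp prL +
    (σ • (EuclideanSpace.proj (2 : Fin 3) : E3 →L[ℝ] ℝ)).smulRight (nn R s r f (prL y))

theorem Phi_fderiv (hr : 0 < r) (hR : r < R) (hs0 : 0 < s) (hs1 : s < 1) (hf : Imm R s r f)
    (σ : ℝ) (y : E3) : HasFDerivAt (Phi R s r f σ) (dPhi R s r f σ y) y := by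
  have h1 : HasFDerivAt (fun y : E3 => σ * y 2)
      (σ • (EuclideanSpace.proj (2 : Fin 3) : E3 →L[ℝ] ℝ)) y :=
    ((EuclideanSpace.proj (2 : Fin 3) : E3 →L[ℝ] ℝ).hasFDerivAt).const_mul σ
  have h2 : HasFDerivAt (fun y : E3 => nn R s r f (prL y))
      ((fderiv ℝ (nn R s r f) (prL y)).comp prL) y :=
    (nn_diff hr hR hs0 hs1 hf (prL y)).hasFDerivAt.comp y prL.hasFDerivAt
  exact h1.smul h2

theorem dPhi_det (hr : 0 < r) (hR : r < R) (hs0 : 0 < s) (hs1 : s < 1) (hf : Imm R s r f)
    (σ : ℝ) (hσ : σ ^ 2 = 1) (y : E3) :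
    |(dPhi R s r f σ y).det| = |y 2 ^ 2 * (s * Real.cos (y 1))| := by
  have e0 : dPhi R s r f σ y (EuclideanSpace.single 0 1) =
      (σ * y 2) • pd 0 (nn R s r f) (prL y) := by
    simp [dPhi, prL_0, pd]
  have e1 : dPhi R s r f σ y (EuclideanSpace.single 1 1) =
      (σ * y 2) • pd 1 (nn R s r f) (prL y) := by
    simp [dPhi, prL_1, pd]
  have e2 : dPhi R s r f σ y (EuclideanSpace.single 2 1) = σ • nn R s r f (prL y) := by
    simp [dPhi, prL_2]
  have h1 : ∀ (c : ℝ) (a b z : E3), ⟪cr (c • a) (c • b), σ • z⟫ = σ * (c ^ 2 * ⟪cr a b, z⟫) := by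
    intro c a b z
    simp only [inner3, cr_0, cr_1, cr_2, PiLp.smul_apply, smul_eq_mul]
    ring
  have h2 := det_nn hr hR hs0 hs1 hf (prL y)
  have h3 : (prL y) 1 = y 1 := rfl
  have h4 : |σ| = 1 := by
    rw [← sq_abs] at hσ
    nlinarith [abs_nonneg σ]
  rw [det_eq, e0, e1, e2, h1, h2, h3, abs_mul, h4, one_mul, mul_pow, hσ, one_mul]

end

end H882R2
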