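import Pool.Agent.H882R2.ET0LDefs

set_option autoImplicit false

namespace Pool.Agent.H882R2.ET0L

section rew
variable {A B C : Type}

theorem Rew.append {h : A → Set (List B)} {x x' : List A} {y y' : List B}
    (h1 : Rew h x y) (h2 : Rew h x' y') : Rew h (x ++ x') (y ++ y') := by
  induction h1 with
  | nil => simpa using h2
  | cons hu _ ih => rw [List.cons_append, List.append_assoc]; exact Rew.cons hu ih

theorem Rew.split {h : A → Set (List B)} {x x' : List A} {z : List B} (H : Rew h (x ++ x') z) :
    ∃ y y', z = y ++ y' ∧ Rew h x y ∧ Rew h x' y' := by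
  induction x generalizing z with
  | nil => exact ⟨[], z, rfl, Rew.nil, H⟩
  | cons c x ih =>
    rw [List.cons_append] at H
    cases H with
    | cons hu hr =>
      obtain ⟨y, y', rfl, h1, h2⟩ := ih hr
      exact ⟨_ ++ y, y', by rw [List.append_assoc], Rew.cons hu h1, h2⟩

theorem Rew.nil_left {h : A → Set (List B)} {z : List B} (H : Rew h [] z) : z = [] := by
  cases H; rfl

/-- refinement: pieces may be moved to another rule set -/
theorem Rew.refine {R R' : A → Set (List B)} {x : List A} {w : List B} (H : Rew R x w)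
    (hr : ∀ c ∈ x, ∀ u ∈ R c, (∀ b ∈ u, b ∈ w) → u ∈ R' c) : Rew R' x w := by
  induction H with
  | nil => exact Rew.nil
  | @cons c u x y hu _ ih =>
    refine Rew.cons (hr c (by simp) u hu (fun b hb => by simp [hb])) (ih ?_)
    intro c' hc' u' hu' hb
    exact hr c' (by simp [hc']) u' hu' (fun b hb' => by simp [hb b hb'])

theorem Rew.comp {R : A → Set (List B)} {h : B → Set (List C)} {x : List A} {w : List B}
    {z : List C} (H1 : Rew R x w) (H2 : Rew h w z) :
    Rew (fun c => {v | ∃ u ∈ R c, Rew h u v}) x z := by
  induction H1 generalizing z with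
  | nil => rw [H2.nil_left]; exact Rew.nil
  | cons hu _ ih =>
    obtain ⟨y, y', rfl, h1, h2⟩ := H2.split
    exact Rew.cons ⟨_, hu, h1⟩ (ih h2)

theorem Rew.of_map {R : A → Set (List B)} {f : A → B} {x : List A}
    (h : ∀ c ∈ x, [f c] ∈ R c) : Rew R x (x.map f) := by
  induction x with
  | nil => exact Rew.nil
  | cons c x ih =>
    have := Rew.cons (h c (by simp)) (ih fun d hd => h d (by simp [hd]))
    simpa using this

theorem Rew.eq_map {R : A → Set (List B)} {f : A → B} {x : List A} {w : List B}
    (H : Rew R x w) (h : ∀ c ∈ x, ∀ u ∈ R c, u = [f c]) : w = x.map f := by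
  induction H with
  | nil => rfl
  | @cons c u x y hu _ ih =>
    rw [h c (by simp) u hu, ih fun d hd => h d (by simp [hd])]; simp

theorem Rew.self {R : A → Set (List A)} {x : List A} (h : ∀ c ∈ x, [c] ∈ R c) : Rew R x x := by
  have := Rew.of_map (f := id) h
  simpa using this

theorem Rew.eq_self {R : A → Set (List A)} {x w : List A}
    (H : Rew R x w) (h : ∀ c ∈ x, R c = {[c]}) : w = x := by
  have := Rew.eq_map (f := id) H (fun c hc u hu => by rw [h c hc] at hu; simpa using hu)
  simpa using this

theorem Rew.mem_out {h : A → Set (List B)} {x : List A} {z : List B} {c : A} {b : B}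
    (H : Rew h x z) (hc : c ∈ x) (hb : ∀ u ∈ h c, b ∈ u) : b ∈ z := by
  induction H with
  | nil => simp at hc
  | @cons d u x y hu _ ih =>
    rcases List.mem_cons.1 hc with rfl | hc
    · exact List.mem_append_left _ (hb _ hu)
    · exact List.mem_append_right _ (ih hc)

/-- rewriting a mapped word, seen as a rewriting of the original one -/
theorem Rew.map_left {f : C → A} {h : A → Set (List B)} {x : List C} {z : List B} :
    Rew h (x.map f) z ↔ Rew (fun c => h (f c)) x z := by
  constructor
  · intro H
    induction x generalizing z with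
    | nil => rw [List.map_nil] at H; rw [H.nil_left]; exact Rew.nil
    | cons c x ih =>
      rw [List.map_cons] at H
      cases H with
      | cons hu hr => exact Rew.cons hu (ih hr)
  · intro H
    induction H with
    | nil => exact Rew.nil
    | cons hu _ ih => exact Rew.cons hu ih

theorem Rew.map_right {f : B → C} {h : A → Set (List B)} {x : List A} {z : List C} :
    Rew (fun c => (List.map f) '' (h c)) x z ↔ ∃ y, z = y.map f ∧ Rew h x y := by
  constructor
  · intro H
    induction H with
    | nil => exact ⟨[], rfl, Rew.nil⟩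
    | cons hu _ ih =>
      obtain ⟨y, rfl, h1⟩ := ih
      obtain ⟨v, hv, rfl⟩ := hu
      exact ⟨v ++ y, by simp, Rew.cons hv h1⟩
  · rintro ⟨y, rfl, H⟩
    induction H with
    | nil => exact Rew.nil
    | cons hu _ ih => rw [List.map_append]; exact Rew.cons ⟨_, hu, rfl⟩ ih

end rew

open Classical in
/-- change only the letter `a`, to the words of `W` -/
noncomputable def upd {L : Type} (a : L) (W : Set (List L)) (c : L) : Set (List L) :=
  if c = a then W else {[c]}

theorem upd_self {L : Type} (a : L) (W : Set (List L)) : upd a W a = W := by simp [upd]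

theorem upd_ne {L : Type} {a c : L} (W : Set (List L)) (h : c ≠ a) : upd a W c = {[c]} := by
  simp [upd, h]

/-- A controlled system: a finite control, where in a state one letter may be rewritten, and a move
to another state may be conditional on the absence of one letter. -/
structure Ctl (T : Type) where
  L : Type
  Q : Type
  finL : Finite L
  finQ : Finite Q
  ι : T → L
  inj : Function.Injective ι
  ops : Set (Q × L × Set (List L))
  ops_fin : ops.Finite
  ops_img : ∀ o ∈ ops, o.2.2.Finite ∧ o.2.2.Nonempty
  mvs : Set (Q × Q × Option L)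
  mvs_ne : ∀ m ∈ mvs, m.1 ≠ m.2.1
  q0 : Q
  qf : Q
  q0_ne : ∃ q, q ≠ q0
  ax : List L

/-- reachable configurations -/
inductive Ctl.Reach {T : Type} (M : Ctl T) : M.Q → List M.L → Prop
  | start : Ctl.Reach M M.q0 M.ax
  | op {q : M.Q} {w w' : List M.L} {a : M.L} {W : Set (List M.L)} :
      Ctl.Reach M q w → (q, a, W) ∈ M.ops → Rew (upd a W) w w' → Ctl.Reach M q w'
  | mv {q q' : M.Q} {w : List M.L} {o : Option M.L} :
      Ctl.Reach M q w → (q, q', o) ∈ M.mvs → (∀ a ∈ o, a ∉ w) → Ctl.Reach M q' w

def Ctl.lang {T : Type} (M : Ctl T) : Set (List T) := {w | M.Reach M.qf (w.map M.ι)}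

/-- the final words consist of inert letters -/
def Ctl.Inert {T : Type} (M : Ctl T) : Prop :=
  ∀ w, M.Reach M.qf w → ∀ c ∈ w, ∀ o ∈ M.ops, c ≠ o.2.1

section sim
variable {T : Type} (M : Ctl T)

/-- letters of the simulating system: main letters, guard letters, and a failure letter -/
abbrev Ltr := Option (M.L ⊕ M.Q)

abbrev lt (c : M.L) : Ltr M := some (Sum.inl c)
abbrev gd (q : M.Q) : Ltr M := some (Sum.inr q)
abbrev fl : Ltr M := none

open Classical in
noncomputable def opT (o : M.Q × M.L × Set (List M.L)) (c : Ltr M) : Set (List (Ltr M)) :=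
  if c = lt M o.2.1 then (List.map (lt M)) '' o.2.2 else
  if c = gd M o.1 then {[fl M]} else {[c]}

open Classical in
noncomputable def mvT (m : M.Q × M.Q × Option M.L) (c : Ltr M) : Set (List (Ltr M)) :=
  if c = gd M m.2.1 then {[gd M m.1]} else
  if c = gd M m.1 then {[fl M]} else
  if ∃ a ∈ m.2.2, c = lt M a then {[fl M]} else {[c]}

open Classical in
noncomputable def erT (q : M.Q) (c : Ltr M) : Set (List (Ltr M)) :=
  if c = gd M q then {[]} else if c = gd M M.qf then {[fl M]} else {[c]}

def idT (c : Ltr M) : Set (List (Ltr M)) := {[c]}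

def tabs : Set (Ltr M → Set (List (Ltr M))) :=
  (opT M '' M.ops) ∪ (mvT M '' M.mvs) ∪ (erT M '' {q | q ≠ M.qf}) ∪ {idT M}

noncomputable def gds : List M.Q := by
  haveI := M.finQ
  haveI := Fintype.ofFinite M.Q
  classical exact (Finset.univ.erase M.q0).toList

theorem gds_nodup : (gds M).Nodup := by
  classical
  unfold gds; exact Finset.nodup_toList _

theorem mem_gds (x : M.Q) : x ∈ gds M ↔ x ≠ M.q0 := by
  classical
  unfold gds; simp

noncomputable def sim : Sys T where
  A := Ltr M
  finA := by have := M.finQ; have := M.finL; infer_instance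
  ι := fun t => lt M (M.ι t)
  inj := by
    intro a b h
    exact M.inj (by simpa using h)
  tables := tabs M
  tables_fin := by
    have := M.finQ; have := M.finL
    refine Set.Finite.union (Set.Finite.union (Set.Finite.union ?_ ?_) ?_) (Set.finite_singleton _)
    · exact M.ops_fin.image _
    · exact (Set.toFinite _).image _
    · exact (Set.toFinite _).image _
  tables_ne := ⟨idT M, Or.inr rfl⟩
  img_fin := by
    rintro h (((⟨o, ho, rfl⟩ | ⟨m, hm, rfl⟩) | ⟨q, hq, rfl⟩) | rfl) c
    · unfold opT; split_ifs
      · exact (M.ops_img o ho).1.image _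
      · simp
      · simp
    · unfold mvT; split_ifs <;> simp
    · unfold erT; split_ifs <;> simp
    · simp [idT]
  img_ne := by
    rintro h (((⟨o, ho, rfl⟩ | ⟨m, hm, rfl⟩) | ⟨q, hq, rfl⟩) | rfl) c
    · unfold opT; split_ifs
      · exact (M.ops_img o ho).2.image _
      · simp
      · simp
    · unfold mvT; split_ifs <;> simp
    · unfold erT; split_ifs <;> simp
    · simp [idT]
  axm := (gds M).map (gd M) ++ M.ax.map (lt M)
  axm_ne := by
    obtain ⟨q, hq⟩ := M.q0_ne
    intro h
    have : q ∈ gds M := (mem_gds M q).2 hq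
    rw [List.append_eq_nil_iff] at h
    have h2 := h.1
    rw [List.map_eq_nil_iff] at h2
    rw [h2] at this
    simp at this

theorem sim_restricted : (sim M).Restricted 3 := by
  classical
  rintro h (((⟨o, ho, rfl⟩ | ⟨m, hm, rfl⟩) | ⟨q, hq, rfl⟩) | rfl)
  · have : {c | opT M o c ≠ {[c]}} ⊆ {lt M o.2.1, gd M o.1} := by
      intro c hc
      by_contra hn
      simp only [Set.mem_insert_iff, Set.mem_singleton_iff, not_or] at hn
      exact hc (by simp [opT, hn.1, hn.2])
    refine (Set.ncard_le_ncard this (Set.toFinite _)).trans ?_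
    exact (Set.ncard_insert_le _ _).trans (by simp)
  · have : {c | mvT M m c ≠ {[c]}} ⊆ {gd M m.2.1, gd M m.1} ∪ (lt M '' {a | a ∈ m.2.2}) := by
      intro c hc
      by_contra hn
      simp only [Set.mem_union, Set.mem_insert_iff, Set.mem_singleton_iff, not_or] at hn
      refine hc ?_
      have : ¬ ∃ a ∈ m.2.2, c = lt M a := by
        rintro ⟨a, ha, rfl⟩
        exact hn.2 ⟨a, ha, rfl⟩
      simp only [mvT, hn.1.1, hn.1.2, this, if_false]
    refine (Set.ncard_le_ncard this ?_).trans ?_
    · have := M.finL
      exact (Set.toFinite _).union ((Set.toFinite _).image _)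
    refine (Set.ncard_union_le _ _).trans ?_
    have h1 : ({gd M m.2.1, gd M m.1} : Set (Ltr M)).ncard ≤ 2 :=
      (Set.ncard_insert_le _ _).trans (by simp)
    have h2 : (lt M '' {a | a ∈ m.2.2}).ncard ≤ 1 := by
      rcases m.2.2 with _ | a
      · simp
      · have : (lt M '' {b | b ∈ some a}) = {lt M a} := by
          ext c; constructor
          · rintro ⟨b, hb, rfl⟩
            simp only [Set.mem_ofPred_eq, Option.mem_def, Option.some.injEq] at hb
            simp [hb]
          · rintro rfl
            exact ⟨a, rfl, rfl⟩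
        rw [this]; simp
    omega
  · have : {c | erT M q c ≠ {[c]}} ⊆ {gd M q, gd M M.qf} := by
      intro c hc
      by_contra hn
      simp only [Set.mem_insert_iff, Set.mem_singleton_iff, not_or] at hn
      exact hc (by simp [erT, hn.1, hn.2])
    refine (Set.ncard_le_ncard this (Set.toFinite _)).trans ?_
    exact (Set.ncard_insert_le _ _).trans (by simp)
  · have : {c : Ltr M | idT M c ≠ {[c]}} = ∅ := by
      ext c; simp [idT]
    show {c : Ltr M | idT M c ≠ {[c]}}.ncard ≤ 3
    rw [this]; simp

end sim

end Pool.Agent.H882R2.ET0L
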