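import Mathlib

/-!
# ET0L systems

Words over an alphabet `A` are lists of elements of `A`.
-/

set_option autoImplicit false

namespace Pool.Agent.H882R2.ET0L

/-- `Rew h x y`: the word `y` is obtained from the word `x` by replacing every letter occurrence
`c` of `x`, simultaneously and independently, by some word of `h c`; that is, `y ∈ h(x)`. -/
inductive Rew {A B : Type} (h : A → Set (List B)) : List A → List B → Prop
  | nil : Rew h [] []
  | cons {c : A} {u : List B} {x : List A} {y : List B} :
      u ∈ h c → Rew h x y → Rew h (c :: x) (u ++ y)

/-- An ET0L system with terminal alphabet `T`. -/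
structure Sys (T : Type) where
  /-- the alphabet `Σ` of the system -/
  A : Type
  /-- the alphabet is finite -/
  finA : Finite A
  /-- the inclusion of the terminal alphabet into the alphabet of the system -/
  ι : T → A
  inj : Function.Injective ι
  /-- the set of tables; a table assigns to each letter a set of words -/
  tables : Set (A → Set (List A))
  tables_fin : tables.Finite
  tables_ne : tables.Nonempty
  img_fin : ∀ h ∈ tables, ∀ c, (h c).Finite
  img_ne : ∀ h ∈ tables, ∀ c, (h c).Nonempty
  /-- the axiom, a nonempty word -/
  axm : List A
  axm_ne : axm ≠ []

/-- One derivation step: `x ⇒ y` when `y ∈ h(x)` for some table `h`. -/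
def Sys.Step {T : Type} (S : Sys T) (x y : List S.A) : Prop := ∃ h ∈ S.tables, Rew h x y

/-- Derivations: the reflexive transitive closure of the one step relation. -/
def Sys.Der {T : Type} (S : Sys T) : List S.A → List S.A → Prop := Relation.ReflTransGen S.Step

/-- The language of the system: the words over the terminal alphabet derivable from the axiom. -/
def Sys.lang {T : Type} (S : Sys T) : Set (List T) := {w | S.Der S.axm (w.map S.ι)}

/-- The system is `k`-restricted: in every table at most `k` letters `c` have `h(c) ≠ {c}`. -/
def Sys.Restricted {T : Type} (S : Sys T) (k : ℕ) : Prop :=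
  ∀ h ∈ S.tables, {c | h c ≠ {[c]}}.ncard ≤ k

end Pool.Agent.H882R2.ET0L
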