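import Pool.Agent.H882R2.ET0LSim

set_option autoImplicit false

namespace Pool.Agent.H882R2.ET0L

/-! ### a pass: every letter `s c` is replaced by a word of `R c`, letter by letter -/
section pass
variable {A L : Type} {n : ℕ} (e : A ≃ Fin n) (s : A → L) (R : A → Set (List L))

/-- during a pass, when the letters with index `< j` are done -/
def PR (j : ℕ) (c : A) : Set (List L) := {u | u ∈ R c ∨ (j ≤ (e c : ℕ) ∧ u = [s c])}

/-- the words for `s a` in a pass -/
def Wd (a : A) : Set (List L) := insert [s a] (R a)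

theorem pass_start (x : List A) : Rew (PR e s R 0) x (x.map s) :=
  Rew.of_map (fun _ _ => Or.inr ⟨Nat.zero_le _, rfl⟩)

theorem pass_op (hs : Function.Injective s) (hR : ∀ c, ∀ u ∈ R c, ∀ d, s d ∉ u)
    {x : List A} {w w' : List L} {a : A} (H : Rew (PR e s R (e a)) x w)
    (h : Rew (upd (s a) (Wd s R a)) w w') : Rew (PR e s R (e a)) x w' := by
  refine (H.comp h).refine ?_
  rintro c _ v ⟨u, hu, huv⟩ _
  rcases hu with hu | ⟨hj, rfl⟩
  · have : v = u := huv.eq_self (fun d hd => upd_ne _ (fun h1 => hR c u hu a (h1 ▸ hd)))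
    rw [this]
    exact Or.inl hu
  · by_cases hca : c = a
    · subst hca
      cases huv with
      | @cons _ u1 _ y hu1 hr =>
        have hy := hr.nil_left
        subst hy
        rw [upd_self] at hu1
        rw [List.append_nil]
        rcases hu1 with hu1 | hu1
        · exact Or.inr ⟨hj, hu1⟩
        · exact Or.inl hu1
    · have : v = [s c] := huv.eq_self (fun d hd => by
        rw [List.mem_singleton] at hd
        rw [hd]
        exact upd_ne _ (fun h1 => hca (hs h1)))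
      exact Or.inr ⟨hj, this⟩

theorem pass_mv {x : List A} {w : List L} {a : A} (H : Rew (PR e s R (e a)) x w)
    (h : s a ∉ w) : Rew (PR e s R (e a + 1)) x w := by
  refine H.refine ?_
  intro c _ u hu hb
  rcases hu with hu | ⟨hj, rfl⟩
  · exact Or.inl hu
  · have h1 : s c ∈ w := hb _ (by simp)
    have h2 : c ≠ a := by rintro rfl; exact h h1
    have h3 : (e c : ℕ) ≠ e a := fun h4 => h2 (e.injective (Fin.ext h4))
    exact Or.inr ⟨by omega, rfl⟩

theorem pass_end {x : List A} {w : List L} (H : Rew (PR e s R n) x w) : Rew R x w := by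
  refine H.refine ?_
  intro c _ u hu _
  rcases hu with hu | ⟨hj, _⟩
  · exact hu
  · exact absurd (e c).isLt (by omega)

/-- the intermediate words -/
def Wj (j : ℕ) : List (A × List L) → List L
  | [] => []
  | p :: l => (if (e p.1 : ℕ) < j then p.2 else [s p.1]) ++ Wj j l

theorem Wj_zero (l : List (A × List L)) : Wj e s 0 l = (l.map Prod.fst).map s := by
  induction l with
  | nil => rfl
  | cons p l ih => simp [Wj, ih]

theorem Wj_op (hs : Function.Injective s) (hR : ∀ c, ∀ u ∈ R c, ∀ d, s d ∉ u) (a : A)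
    (l : List (A × List L)) (hl : ∀ p ∈ l, p.2 ∈ R p.1) :
    Rew (upd (s a) (Wd s R a)) (Wj e s (e a) l) (Wj e s (e a + 1) l) := by
  induction l with
  | nil => exact Rew.nil
  | cons p l ih =>
    have hp := hl p (by simp)
    refine Rew.append ?_ (ih fun q hq => hl q (by simp [hq]))
    rcases lt_trichotomy (e p.1 : ℕ) (e a) with h | h | h
    · rw [if_pos h, if_pos (by omega)]
      refine Rew.self ?_
      intro d hd
      have hda : d ≠ s a := by rintro rfl; exact hR p.1 p.2 hp a hd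
      rw [upd_ne _ hda]
      rfl
    · have hpa : p.1 = a := e.injective (Fin.ext h)
      rw [if_neg (by omega), if_pos (by omega)]
      have h1 : p.2 ∈ upd (s a) (Wd s R a) (s p.1) := by
        rw [hpa, upd_self]
        rw [hpa] at hp
        exact Or.inr hp
      have := Rew.cons h1 (Rew.nil (h := upd (s a) (Wd s R a)))
      rwa [List.append_nil] at this
    · rw [if_neg (by omega), if_neg (by omega)]
      refine Rew.self ?_
      intro d hd
      rw [List.mem_singleton] at hd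
      have h1 : s p.1 ≠ s a := by
        intro h2
        rw [hs h2] at h
        omega
      rw [hd, upd_ne _ h1]
      rfl

theorem Wj_mv (hR : ∀ c, ∀ u ∈ R c, ∀ d, s d ∉ u) (hs : Function.Injective s) (a : A)
    (l : List (A × List L)) (hl : ∀ p ∈ l, p.2 ∈ R p.1) : s a ∉ Wj e s (e a + 1) l := by
  induction l with
  | nil => simp [Wj]
  | cons p l ih =>
    have hp := hl p (by simp)
    have h0 := ih fun q hq => hl q (by simp [hq])
    show s a ∉ _ ++ _
    rw [List.mem_append]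
    rintro (h1 | h1)
    · split_ifs at h1 with h2
      · exact hR _ _ hp _ h1
      · rw [List.mem_singleton] at h1
        rw [hs h1] at h2
        omega
    · exact h0 h1

theorem Wj_last (l : List (A × List L)) (hl : ∀ p ∈ l, p.2 ∈ R p.1) :
    Rew R (l.map Prod.fst) (Wj e s n l) := by
  induction l with
  | nil => exact Rew.nil
  | cons p l ih =>
    have hp := hl p (by simp)
    have h0 := ih fun q hq => hl q (by simp [hq])
    have h1 : Wj e s n (p :: l) = p.2 ++ Wj e s n l := by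
      show (if (e p.1 : ℕ) < n then p.2 else [s p.1]) ++ _ = _
      rw [if_pos (e p.1).isLt]
    rw [h1]
    exact Rew.cons hp h0

theorem exists_list {x : List A} {z : List L} (H : Rew R x z) :
    ∃ l : List (A × List L), (∀ p ∈ l, p.2 ∈ R p.1) ∧ l.map Prod.fst = x ∧ Wj e s n l = z := by
  induction H with
  | nil => exact ⟨[], by simp, rfl, rfl⟩
  | @cons c u x y hu _ ih =>
    obtain ⟨l, h1, h2, h3⟩ := ih
    refine ⟨(c, u) :: l, ?_, by simp [h2], ?_⟩
    · intro p hp
      rcases List.mem_cons.1 hp with rfl | hp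
      · exact hu
      · exact h1 p hp
    · show (if (e c : ℕ) < n then u else [s c]) ++ _ = _
      rw [if_pos (e c).isLt, h3]

/-- a pass can be carried out in a controlled system -/
theorem pass_complete {T : Type} (M : Ctl T) (s : A → M.L) (R : A → Set (List M.L))
    (P : Fin (n + 1) → M.Q)
    (hs : Function.Injective s) (hR : ∀ c, ∀ u ∈ R c, ∀ d, s d ∉ u)
    (hop : ∀ a, (P (e a).castSucc, s a, Wd s R a) ∈ M.ops)
    (hmv : ∀ a, (P (e a).castSucc, P (e a).succ, some (s a)) ∈ M.mvs)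
    {x : List A} {z : List M.L} (h0 : M.Reach (P 0) (x.map s)) (H : Rew R x z) :
    M.Reach (P (Fin.last n)) z := by
  obtain ⟨l, h1, rfl, rfl⟩ := exists_list e s R H
  have key : ∀ j : ℕ, (hj : j < n + 1) → M.Reach (P ⟨j, hj⟩) (Wj e s j l) := by
    intro j
    induction j with
    | zero => intro hj; rw [Wj_zero]; exact h0
    | succ j ih =>
      intro hj
      have h2 := ih (by omega)
      have h3 : e (e.symm ⟨j, by omega⟩) = ⟨j, by omega⟩ := e.apply_symm_apply _
      generalize e.symm ⟨j, by omega⟩ = a at h3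
      have h4 : (e a : ℕ) = j := by rw [h3]
      have h5 : (e a).castSucc = ⟨j, by omega⟩ := by rw [h3]; rfl
      have h6 : (e a).succ = ⟨j + 1, hj⟩ := by rw [h3]; rfl
      have h7 := hop a
      have h8 := hmv a
      rw [h5] at h7 h8
      rw [h6] at h8
      have h9 := Wj_op e s R hs hR a l h1
      have h10 := Wj_mv e s R hR hs a l h1
      rw [h4] at h9 h10
      refine Ctl.Reach.mv (Ctl.Reach.op h2 h7 h9) h8 ?_
      intro b hb
      have : b = s a := by simpa using hb.symm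
      rw [this]; exact h10
  exact key n (Nat.lt_succ_self n)

end pass

/-! ### every system is equivalent to a controlled one -/
section conv
variable {T : Type} (S : Sys T)

abbrev Lc := T ⊕ (S.A × Bool)

def s1 (c : S.A) : Lc S := Sum.inr (c, false)
def s2 (c : S.A) : Lc S := Sum.inr (c, true)

def R1 (h : S.A → Set (List S.A)) (c : S.A) : Set (List (Lc S)) := (List.map (s2 S)) '' (h c)
def R2 (c : S.A) : Set (List (Lc S)) := {[s1 S c]}
def R3 (c : S.A) : Set (List (Lc S)) := {v | ∃ t : T, S.ι t = c ∧ v = [Sum.inl t]}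

noncomputable def num : ℕ := Nat.card S.A

noncomputable def eqv : S.A ≃ Fin (num S) := by
  haveI := S.finA
  exact Finite.equivFin S.A

abbrev St := (S.tables × Fin (num S + 1)) ⊕ (Fin (num S + 1) ⊕ Fin (num S + 1))

abbrev p1 (i : S.tables) (j : Fin (num S + 1)) : St S := Sum.inl (i, j)
abbrev p2 (j : Fin (num S + 1)) : St S := Sum.inr (Sum.inl j)
abbrev p3 (j : Fin (num S + 1)) : St S := Sum.inr (Sum.inr j)

include S in
theorem finT : Finite T := by
  have := S.finA
  exact Finite.of_injective _ S.inj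

def opsC : Set (St S × Lc S × Set (List (Lc S))) :=
  (Set.range fun x : S.tables × S.A =>
    (p1 S x.1 (eqv S x.2).castSucc, s1 S x.2, Wd (s1 S) (R1 S x.1.1) x.2)) ∪
  (Set.range fun c : S.A => (p2 S (eqv S c).castSucc, s2 S c, Wd (s2 S) (R2 S) c)) ∪
  (Set.range fun c : S.A => (p3 S (eqv S c).castSucc, s1 S c, Wd (s1 S) (R3 S) c))

def mvsC : Set (St S × St S × Option (Lc S)) :=
  (Set.range fun x : S.tables × S.A =>
    (p1 S x.1 (eqv S x.2).castSucc, p1 S x.1 (eqv S x.2).succ, some (s1 S x.2))) ∪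
  (Set.range fun c : S.A => (p2 S (eqv S c).castSucc, p2 S (eqv S c).succ, some (s2 S c))) ∪
  (Set.range fun c : S.A => (p3 S (eqv S c).castSucc, p3 S (eqv S c).succ, some (s1 S c))) ∪
  (Set.range fun i : S.tables => (p2 S (Fin.last _), p1 S i 0, none)) ∪
  (Set.range fun i : S.tables => (p1 S i (Fin.last _), p2 S 0, none)) ∪
  {(p2 S (Fin.last _), p3 S 0, none)}

theorem s1_inj : Function.Injective (s1 S) := by
  intro a b h
  simpa [s1] using h

theorem s2_inj : Function.Injective (s2 S) := by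
  intro a b h
  simpa [s2] using h

theorem R1_av (h : S.A → Set (List S.A)) : ∀ c, ∀ u ∈ R1 S h c, ∀ d, s1 S d ∉ u := by
  rintro c _ ⟨v, _, rfl⟩ d hd
  obtain ⟨b, _, hb⟩ := List.mem_map.1 hd
  simp [s1, s2] at hb

theorem R2_av : ∀ c, ∀ u ∈ R2 S c, ∀ d, s2 S d ∉ u := by
  intro c u hu d hd
  have : u = [s1 S c] := hu
  rw [this, List.mem_singleton] at hd
  simp [s1, s2] at hd

theorem R3_av : ∀ c, ∀ u ∈ R3 S c, ∀ d, s1 S d ∉ u := by
  rintro c _ ⟨t, _, rfl⟩ d hd
  rw [List.mem_singleton] at hd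
  simp [s1] at hd

noncomputable def ctl : Ctl T where
  L := Lc S
  Q := St S
  finL := by have := S.finA; have := finT S; infer_instance
  finQ := by have := S.tables_fin.to_subtype; infer_instance
  ι := Sum.inl
  inj := Sum.inl_injective
  ops := opsC S
  ops_fin := by
    have := S.tables_fin.to_subtype
    have := S.finA
    exact ((Set.finite_range _).union (Set.finite_range _)).union (Set.finite_range _)
  ops_img := by
    have := finT S
    rintro o ((⟨⟨i, c⟩, rfl⟩ | ⟨c, rfl⟩) | ⟨c, rfl⟩)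
    · exact ⟨((S.img_fin i.1 i.2 c).image _).insert _, ⟨_, Or.inl rfl⟩⟩
    · exact ⟨(Set.finite_singleton _).insert _, ⟨_, Or.inl rfl⟩⟩
    · refine ⟨Set.Finite.insert _ ?_, ⟨_, Or.inl rfl⟩⟩
      refine (Set.finite_range fun t : T => ([Sum.inl t] : List (Lc S))).subset ?_
      rintro v ⟨t, _, rfl⟩
      exact ⟨t, rfl⟩
  mvs := mvsC S
  mvs_ne := by
    rintro m (((((⟨⟨i, c⟩, rfl⟩ | ⟨c, rfl⟩) | ⟨c, rfl⟩) | ⟨i, rfl⟩) | ⟨i, rfl⟩) | rfl) h
    · simp only [Sum.inl.injEq, Prod.mk.injEq, true_and] at h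
      have := congrArg Fin.val h
      simp at this
    · simp only [Sum.inl.injEq, Sum.inr.injEq] at h
      have := congrArg Fin.val h
      simp at this
    · simp only [Sum.inr.injEq] at h
      have := congrArg Fin.val h
      simp at this
    · simp at h
    · simp at h
    · simp at h
  q0 := p2 S (Fin.last _)
  qf := p3 S (Fin.last _)
  q0_ne := ⟨p3 S (Fin.last _), by simp⟩
  ax := S.axm.map (s1 S)

/-- the invariant -/
def CInv : St S → List (Lc S) → Prop
  | Sum.inl (i, j), w => ∃ x, S.Der S.axm x ∧ Rew (PR (eqv S) (s1 S) (R1 S i.1) j) x w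
  | Sum.inr (Sum.inl j), w => ∃ x, S.Der S.axm x ∧ Rew (PR (eqv S) (s2 S) (R2 S) j) x w
  | Sum.inr (Sum.inr j), w => ∃ x, S.Der S.axm x ∧ Rew (PR (eqv S) (s1 S) (R3 S) j) x w

theorem R2_eq {x : List S.A} {w : List (Lc S)} (H : Rew (R2 S) x w) : w = x.map (s1 S) :=
  H.eq_map (fun _ _ _ hu => hu)

theorem R3_eq {x : List S.A} {w : List (Lc S)} (H : Rew (R3 S) x w) :
    ∃ y : List T, x = y.map S.ι ∧ w = y.map Sum.inl := by
  induction H with
  | nil => exact ⟨[], rfl, rfl⟩
  | cons hu _ ih =>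
    obtain ⟨t, rfl, rfl⟩ := hu
    obtain ⟨y, rfl, rfl⟩ := ih
    exact ⟨t :: y, rfl, rfl⟩

theorem ctl_inv {q : (ctl S).Q} {w : List (ctl S).L} (H : (ctl S).Reach q w) : CInv S q w := by
  induction H with
  | start =>
    refine ⟨S.axm, Relation.ReflTransGen.refl, ?_⟩
    exact Rew.of_map (fun c _ => Or.inl rfl)
  | op _ ho h ih =>
    rcases ho with (⟨⟨i, c⟩, h0⟩ | ⟨c, h0⟩) | ⟨c, h0⟩
    · cases h0
      obtain ⟨x, h1, h2⟩ := ih
      exact ⟨x, h1, pass_op (eqv S) (s1 S) _ (s1_inj S) (R1_av S i.1) h2 h⟩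
    · cases h0
      obtain ⟨x, h1, h2⟩ := ih
      exact ⟨x, h1, pass_op (eqv S) (s2 S) _ (s2_inj S) (R2_av S) h2 h⟩
    · cases h0
      obtain ⟨x, h1, h2⟩ := ih
      exact ⟨x, h1, pass_op (eqv S) (s1 S) _ (s1_inj S) (R3_av S) h2 h⟩
  | mv _ hm h ih =>
    rcases hm with ((((⟨⟨i, c⟩, h0⟩ | ⟨c, h0⟩) | ⟨c, h0⟩) | ⟨i, h0⟩) | ⟨i, h0⟩) | h0
    · cases h0
      obtain ⟨x, h1, h2⟩ := ih
      exact ⟨x, h1, pass_mv (eqv S) (s1 S) _ h2 (h _ rfl)⟩
    · cases h0
      obtain ⟨x, h1, h2⟩ := ih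
      exact ⟨x, h1, pass_mv (eqv S) (s2 S) _ h2 (h _ rfl)⟩
    · cases h0
      obtain ⟨x, h1, h2⟩ := ih
      exact ⟨x, h1, pass_mv (eqv S) (s1 S) _ h2 (h _ rfl)⟩
    · cases h0
      obtain ⟨x, h1, h2⟩ := ih
      have h3 := R2_eq S (pass_end (eqv S) (s2 S) (R2 S) h2)
      subst h3
      exact ⟨x, h1, pass_start (eqv S) (s1 S) _ x⟩
    · cases h0
      obtain ⟨x, h1, h2⟩ := ih
      obtain ⟨y, rfl, h3⟩ := Rew.map_right.1 (pass_end (eqv S) (s1 S) (R1 S i.1) h2)
      exact ⟨y, h1.tail ⟨i.1, i.2, h3⟩, pass_start (eqv S) (s2 S) _ y⟩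
    · cases h0
      obtain ⟨x, h1, h2⟩ := ih
      have h3 := R2_eq S (pass_end (eqv S) (s2 S) (R2 S) h2)
      subst h3
      exact ⟨x, h1, pass_start (eqv S) (s1 S) _ x⟩

theorem ctl_final {w : List (Lc S)} (H : (ctl S).Reach (ctl S).qf w) :
    ∃ y : List T, S.Der S.axm (y.map S.ι) ∧ w = y.map Sum.inl := by
  obtain ⟨x, h1, h2⟩ := ctl_inv S H
  obtain ⟨y, rfl, h3⟩ := R3_eq S (pass_end (eqv S) (s1 S) (R3 S) h2)
  exact ⟨y, h1, h3⟩

theorem ctl_inert : (ctl S).Inert := by
  intro w hw c hc o ho h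
  obtain ⟨y, _, rfl⟩ := ctl_final S hw
  obtain ⟨t, _, rfl⟩ := List.mem_map.1 hc
  rcases ho with (⟨⟨i, c⟩, rfl⟩ | ⟨c, rfl⟩) | ⟨c, rfl⟩
  · simp [s1] at h
  · simp [s2] at h
  · simp [s1] at h

theorem ctl_der {x : List S.A} (H : S.Der S.axm x) :
    (ctl S).Reach (p2 S (Fin.last _)) (x.map (s1 S)) := by
  induction H with
  | refl => exact Ctl.Reach.start
  | @tail x y _ h ih =>
    obtain ⟨t, ht, hr⟩ := h
    have h1 : (ctl S).Reach (p1 S ⟨t, ht⟩ 0) (x.map (s1 S)) :=
      Ctl.Reach.mv ih (Or.inl (Or.inl (Or.inr ⟨⟨t, ht⟩, rfl⟩))) (by rintro a ⟨⟩)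
    have h2 : Rew (R1 S t) x (y.map (s2 S)) := Rew.map_right.2 ⟨y, rfl, hr⟩
    have h3 := pass_complete (eqv S) (ctl S) (s1 S) (R1 S t) (fun j => p1 S ⟨t, ht⟩ j) (s1_inj S)
      (R1_av S t) (fun a => Or.inl (Or.inl ⟨(⟨t, ht⟩, a), rfl⟩))
      (fun a => Or.inl (Or.inl (Or.inl (Or.inl (Or.inl ⟨(⟨t, ht⟩, a), rfl⟩))))) h1 h2
    have h4 : (ctl S).Reach (p2 S 0) (y.map (s2 S)) :=
      Ctl.Reach.mv h3 (Or.inl (Or.inr ⟨⟨t, ht⟩, rfl⟩)) (by rintro a ⟨⟩)
    have h5 : Rew (R2 S) y (y.map (s1 S)) := Rew.of_map (fun c _ => rfl)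
    exact pass_complete (eqv S) (ctl S) (s2 S) (R2 S) (fun j => p2 S j) (s2_inj S)
      (R2_av S) (fun a => Or.inl (Or.inr ⟨a, rfl⟩))
      (fun a => Or.inl (Or.inl (Or.inl (Or.inl (Or.inr ⟨a, rfl⟩))))) h4 h5

theorem ctl_lang : (ctl S).lang = S.lang := by
  ext w
  constructor
  · intro hw
    obtain ⟨y, h1, h2⟩ := ctl_final S hw
    have h3 : w = y := List.map_injective_iff.2 Sum.inl_injective h2
    subst h3
    exact h1
  · intro hw
    have h0 := ctl_der S hw
    have h1 : (ctl S).Reach (p3 S 0) ((w.map S.ι).map (s1 S)) :=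
      Ctl.Reach.mv h0 (Or.inr rfl) (by rintro a ⟨⟩)
    have h2 : Rew (R3 S) (w.map S.ι) (w.map Sum.inl) := by
      rw [Rew.map_left]
      exact Rew.of_map (f := fun t : T => (Sum.inl t : Lc S)) (fun t _ => ⟨t, rfl, rfl⟩)
    exact pass_complete (eqv S) (ctl S) (s1 S) (R3 S) (fun j => p3 S j) (s1_inj S)
      (R3_av S) (fun a => Or.inr ⟨a, rfl⟩)
      (fun a => Or.inl (Or.inl (Or.inl (Or.inr ⟨a, rfl⟩)))) h1 h2

/-- every ET0L language is generated by a `3`-restricted system -/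
theorem exists_three : ∃ S' : Sys T, S'.Restricted 3 ∧ S'.lang = S.lang :=
  ⟨sim (ctl S), sim_restricted (ctl S), (sim_lang (ctl S) (ctl_inert S)).trans (ctl_lang S)⟩

end conv

end Pool.Agent.H882R2.ET0L
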