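import Pool.Agent.H882R2.ET0LTwo

/-!
# One letter does not suffice

The language `{0^n 1^n 2^n}` is an ET0L language which no `1`-restricted system generates.
-/

set_option autoImplicit false

namespace Pool.Agent.H882R2.ET0L

section gen
variable {T : Type} (S : Sys T)

/-- `Gen μ x z`: the sequence of tables `μ` may turn `x` into the terminal word `z`. -/
def Gen : List (S.A → Set (List S.A)) → List S.A → List T → Prop
  | [], x, z => x = z.map S.ι
  | h :: μ, x, z => ∃ y, Rew h x y ∧ Gen μ y z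

theorem gen_nil_left {μ : List (S.A → Set (List S.A))} {z : List T} :
    Gen S μ [] z ↔ z = [] := by
  induction μ with
  | nil =>
    constructor
    · intro h
      have : [] = z.map S.ι := h
      simpa using this.symm
    · rintro rfl; rfl
  | cons h μ ih =>
    constructor
    · rintro ⟨y, h1, h2⟩
      rw [h1.nil_left] at h2
      exact ih.1 h2
    · intro hz
      exact ⟨[], Rew.nil, ih.2 hz⟩

theorem gen_split {μ : List (S.A → Set (List S.A))} : ∀ {x x' : List S.A} {z : List T},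
    Gen S μ (x ++ x') z → ∃ z1 z2, z = z1 ++ z2 ∧ Gen S μ x z1 ∧ Gen S μ x' z2 := by
  induction μ with
  | nil =>
    intro x x' z h
    have h' : x ++ x' = z.map S.ι := h
    obtain ⟨z1, z2, h1, h2, h3⟩ := List.map_eq_append_iff.1 h'.symm
    exact ⟨z1, z2, h1, h2.symm, h3.symm⟩
  | cons h μ ih =>
    rintro x x' z ⟨y, h1, h2⟩
    obtain ⟨y1, y2, rfl, h3, h4⟩ := h1.split
    obtain ⟨z1, z2, rfl, h5, h6⟩ := ih h2
    exact ⟨z1, z2, rfl, ⟨y1, h3, h5⟩, ⟨y2, h4, h6⟩⟩

theorem gen_append {μ : List (S.A → Set (List S.A))} : ∀ {x x' : List S.A} {z z' : List T},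
    Gen S μ x z → Gen S μ x' z' → Gen S μ (x ++ x') (z ++ z') := by
  induction μ with
  | nil =>
    intro x x' z z' h h'
    have h1 : x = z.map S.ι := h
    have h2 : x' = z'.map S.ι := h'
    show x ++ x' = (z ++ z').map S.ι
    rw [h1, h2, List.map_append]
  | cons h μ ih =>
    rintro x x' z z' ⟨y, h1, h2⟩ ⟨y', h3, h4⟩
    exact ⟨y ++ y', h1.append h3, ih h2 h4⟩

theorem gen_split_cons {μ : List (S.A → Set (List S.A))} {c : S.A} {x : List S.A} {z : List T}
    (h : Gen S μ (c :: x) z) : ∃ z1 z2, z = z1 ++ z2 ∧ Gen S μ [c] z1 ∧ Gen S μ x z2 :=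
  gen_split S (x := [c]) h

theorem gen_cons {μ : List (S.A → Set (List S.A))} {c : S.A} {x : List S.A} {z z' : List T}
    (h : Gen S μ [c] z) (h' : Gen S μ x z') : Gen S μ (c :: x) (z ++ z') :=
  gen_append S (x := [c]) h h'

theorem ok_of_gen {μ : List (S.A → Set (List S.A))} {x : List S.A} : ∀ {z : List T},
    Gen S μ x z → ∀ c ∈ x, ∃ w, Gen S μ [c] w := by
  induction x with
  | nil => intro z _ c hc; simp at hc
  | cons d x ih =>
    intro z h c hc
    obtain ⟨z1, z2, rfl, h1, h2⟩ := gen_split_cons S h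
    rcases List.mem_cons.1 hc with rfl | hc
    · exact ⟨z1, h1⟩
    · exact ih h2 c hc

theorem gen_of_ok {μ : List (S.A → Set (List S.A))} {x : List S.A}
    (h : ∀ c ∈ x, ∃ w, Gen S μ [c] w) : ∃ w, Gen S μ x w := by
  induction x with
  | nil => exact ⟨[], (gen_nil_left S).2 rfl⟩
  | cons d x ih =>
    obtain ⟨w1, h1⟩ := h d (by simp)
    obtain ⟨w2, h2⟩ := ih fun c hc => h c (by simp [hc])
    exact ⟨w1 ++ w2, gen_cons S h1 h2⟩

theorem gen_upd_iff {p c : S.A} {W : Set (List S.A)} {μ : List (S.A → Set (List S.A))}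
    (hc : c ≠ p) {z : List T} : Gen S (upd p W :: μ) [c] z ↔ Gen S μ [c] z := by
  constructor
  · rintro ⟨y, h1, h2⟩
    have : y = [c] := h1.eq_self (fun d hd => by
      rw [List.mem_singleton] at hd
      rw [hd]; exact upd_ne _ hc)
    rw [this] at h2
    exact h2
  · intro h
    refine ⟨[c], Rew.self ?_, h⟩
    intro d hd
    rw [List.mem_singleton] at hd
    rw [hd, upd_ne _ hc]; rfl

theorem gen_upd_not_mem {p : S.A} {W : Set (List S.A)} {μ : List (S.A → Set (List S.A))}
    {x : List S.A} (hp : p ∉ x) {z : List T} (h : Gen S (upd p W :: μ) x z) : Gen S μ x z := by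
  obtain ⟨y, h1, h2⟩ := h
  have : y = x := h1.eq_self (fun d hd => upd_ne _ (by rintro rfl; exact hp hd))
  rw [this] at h2
  exact h2

theorem rew_length {A B : Type} {h : A → Set (List B)} {ρ : ℕ}
    (hρ : ∀ c, ∀ u ∈ h c, u.length ≤ ρ) {x : List A} {y : List B} (H : Rew h x y) :
    y.length ≤ x.length * ρ := by
  induction H with
  | nil => simp
  | cons hu _ ih =>
    rw [List.length_append, List.length_cons, Nat.succ_mul]
    have := hρ _ _ hu
    omega

theorem gen_length {ρ : ℕ} {μ : List (S.A → Set (List S.A))} :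
    ∀ (_ : ∀ h ∈ μ, ∀ c, ∀ u ∈ h c, u.length ≤ ρ) {x : List S.A} {z : List T},
    Gen S μ x z → z.length ≤ x.length * ρ ^ μ.length := by
  induction μ with
  | nil =>
    intro _ x z h
    have h1 : x = z.map S.ι := h
    rw [h1]; simp
  | cons h μ ih =>
    rintro hρ x z ⟨y, h1, h2⟩
    have h3 := ih (fun h' hh' => hρ h' (by simp [hh'])) h2
    have h4 := rew_length (hρ h (by simp)) h1
    rw [List.length_cons, pow_succ, mul_comm (ρ ^ _), ← mul_assoc]
    exact h3.trans (Nat.mul_le_mul_right _ h4)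

theorem gen_concat {π : List (S.A → Set (List S.A))} {h : S.A → Set (List S.A)} {a x y : List S.A}
    (hπ : ∀ ν w, Gen S ν x w → Gen S (π ++ ν) a w) (hr : Rew h x y) :
    ∀ ν w, Gen S ν y w → Gen S ((π ++ [h]) ++ ν) a w := by
  intro ν w hw
  rw [List.append_assoc]
  exact hπ _ _ ⟨y, hr, hw⟩

theorem gen_of_der {x : List S.A} {z : List T} (h : S.Der x (z.map S.ι)) :
    ∃ μ, (∀ h ∈ μ, h ∈ S.tables) ∧ Gen S μ x z := by
  induction h using Relation.ReflTransGen.head_induction_on with
  | refl => exact ⟨[], by simp, rfl⟩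
  | head h _ ih =>
    obtain ⟨t, ht, hr⟩ := h
    obtain ⟨μ, h1, h2⟩ := ih
    refine ⟨t :: μ, ?_, ⟨_, hr, h2⟩⟩
    intro h' hh'
    rcases List.mem_cons.1 hh' with rfl | hh'
    · exact ht
    · exact h1 _ hh'

theorem der_of_gen {μ : List (S.A → Set (List S.A))} : ∀ {x : List S.A} {z : List T},
    (∀ h ∈ μ, h ∈ S.tables) → Gen S μ x z → S.Der x (z.map S.ι) := by
  induction μ with
  | nil =>
    intro x z _ h
    have h1 : x = z.map S.ι := h
    rw [h1]; exact Relation.ReflTransGen.refl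
  | cons h μ ih =>
    rintro x z hμ ⟨y, h1, h2⟩
    exact Relation.ReflTransGen.head ⟨h, hμ h (by simp), h1⟩
      (ih (fun h' hh' => hμ h' (by simp [hh'])) h2)

end gen

/-! ### the language -/

/-- `0^n 1^n 2^n` -/
def wd (n : ℕ) : List (Fin 3) := List.replicate n 0 ++ (List.replicate n 1 ++ List.replicate n 2)

theorem wd_count (n : ℕ) (t : Fin 3) : (wd n).count t = n := by
  unfold wd
  fin_cases t <;> simp [List.count_replicate]

theorem wd_sorted (n : ℕ) : (wd n).Pairwise (· ≤ ·) := by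
  unfold wd
  rw [List.pairwise_append, List.pairwise_append]
  refine ⟨?_, ⟨?_, ?_, ?_⟩, ?_⟩
  · rw [List.pairwise_replicate]; right; decide
  · rw [List.pairwise_replicate]; right; decide
  · rw [List.pairwise_replicate]; right; decide
  · intro a ha b hb
    rw [List.eq_of_mem_replicate ha, List.eq_of_mem_replicate hb]; decide
  · intro a ha b hb
    rw [List.eq_of_mem_replicate ha]
    exact Fin.zero_le b

/-- the language `{0^n 1^n 2^n : n ≥ 0}` -/
def LL : Set (List (Fin 3)) := Set.range wd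

section one
variable (S : Sys (Fin 3))

/-- replacing the contributions of `p` -/
theorem replace_p {p : S.A} {W : Set (List S.A)} {μ : List (S.A → Set (List S.A))}
    {y : List (Fin 3)} (hy : Gen S μ [p] y) {t : Fin 3}
    (ht : ∀ w, Gen S (upd p W :: μ) [p] w → t ∉ w) (hty : t ∉ y) :
    ∀ (x : List S.A) (z : List (Fin 3)), Gen S (upd p W :: μ) x z →
      ∃ z', Gen S μ x z' ∧ z'.count t = z.count t := by
  intro x
  induction x with
  | nil =>
    intro z hz
    rw [gen_nil_left] at hz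
    exact ⟨[], (gen_nil_left S).2 rfl, by rw [hz]⟩
  | cons c x ih =>
    intro z hz
    obtain ⟨z1, z2, rfl, h1, h2⟩ := gen_split_cons S hz
    obtain ⟨z', h3, h4⟩ := ih z2 h2
    by_cases hc : c = p
    · subst hc
      refine ⟨y ++ z', gen_cons S hy h3, ?_⟩
      rw [List.count_append, List.count_append, h4, List.count_eq_zero_of_not_mem hty,
        List.count_eq_zero_of_not_mem (ht z1 h1)]
    · refine ⟨z1 ++ z', gen_cons S ((gen_upd_iff S hc).1 h1) h3, ?_⟩
      rw [List.count_append, List.count_append, h4]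

/-- a letter occurring twice contributes copies of one terminal letter only -/
theorem const_of_twice {ν : List (S.A → Set (List S.A))} {p : S.A} {u v r : List S.A}
    (hL : ∀ w, Gen S ν (u ++ p :: (v ++ p :: r)) w → w ∈ LL)
    (hok : ∀ c ∈ u ++ p :: (v ++ p :: r), ∃ w, Gen S ν [c] w) :
    ∃ s : Fin 3, ∀ w, Gen S ν [p] w → ∀ t ∈ w, t = s := by
  obtain ⟨zu, hu⟩ := gen_of_ok S (μ := ν) (x := u) (fun c hc => hok c (by simp [hc]))
  obtain ⟨zv, hv⟩ := gen_of_ok S (μ := ν) (x := v) (fun c hc => hok c (by simp [hc]))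
  obtain ⟨zr, hr⟩ := gen_of_ok S (μ := ν) (x := r) (fun c hc => hok c (by simp [hc]))
  have key : ∀ w1 w2, Gen S ν [p] w1 → Gen S ν [p] w2 → ∀ t1 ∈ w1, ∀ t2 ∈ w2, t1 ≤ t2 := by
    intro w1 w2 h1 h2 t1 ht1 t2 ht2
    obtain ⟨n, hn⟩ := hL _ (gen_append S hu (gen_cons S h1 (gen_append S hv (gen_cons S h2 hr))))
    have hs := wd_sorted n
    rw [hn, List.pairwise_append] at hs
    have hs2 := hs.2.1
    rw [List.pairwise_append] at hs2
    exact hs2.2.2 t1 ht1 t2 (by simp [ht2])
  by_cases h0 : ∃ w0, Gen S ν [p] w0 ∧ ∃ t0, t0 ∈ w0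
  · obtain ⟨w0, h0, t0, ht0⟩ := h0
    refine ⟨t0, fun w hw t ht => le_antisymm ?_ ?_⟩
    · exact key w w0 hw h0 t ht t0 ht0
    · exact key w0 w h0 hw t0 ht0 t ht
  · refine ⟨0, fun w hw t ht => ?_⟩
    exact absurd ⟨w, hw, t, ht⟩ h0

theorem third (s s' : Fin 3) : ∃ t : Fin 3, t ≠ s ∧ t ≠ s' := by
  revert s s'; decide

theorem not_twice {p : S.A} {W : Set (List S.A)} {μ : List (S.A → Set (List S.A))} {n : ℕ}
    {u v r : List S.A} (hx : Gen S (upd p W :: μ) (u ++ p :: (v ++ p :: r)) (wd n))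
    (hL1 : ∀ w, Gen S (upd p W :: μ) (u ++ p :: (v ++ p :: r)) w → w ∈ LL)
    (hL2 : ∀ w, Gen S μ (u ++ p :: (v ++ p :: r)) w → w ∈ LL ∧ w ≠ wd n)
    (hok : ∀ c ∈ u ++ p :: (v ++ p :: r), ∃ w, Gen S μ [c] w) : False := by
  obtain ⟨s, hs⟩ := const_of_twice S hL1 (ok_of_gen S hx)
  obtain ⟨s', hs'⟩ := const_of_twice S (fun w hw => (hL2 w hw).1) hok
  obtain ⟨t, h1, h2⟩ := third s s'
  obtain ⟨y, hy⟩ := hok p (by simp)
  obtain ⟨z', h3, h4⟩ := replace_p S hy (t := t) (W := W)
    (fun w hw ht => h1 (hs w hw t ht)) (fun ht => h2 (hs' y hy t ht)) _ _ hx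
  obtain ⟨⟨m, hm⟩, hne⟩ := hL2 z' h3
  rw [← hm, wd_count, wd_count] at h4
  rw [← hm, h4] at hne
  exact hne rfl

theorem deletable {p : S.A} {W : Set (List S.A)} {μ : List (S.A → Set (List S.A))} {n : ℕ}
    {x : List S.A} (hx : Gen S (upd p W :: μ) x (wd n))
    (hL1 : ∀ w, Gen S (upd p W :: μ) x w → w ∈ LL)
    (hL2 : ∀ w, Gen S μ x w → w ∈ LL ∧ w ≠ wd n)
    (hok : ∀ c ∈ x, ∃ w, Gen S μ [c] w) :
    ∃ zp, Gen S (upd p W :: μ) [p] zp ∧ n ≤ zp.length := by
  have hp : p ∈ x := by
    by_contra hp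
    exact (hL2 _ (gen_upd_not_mem S hp hx)).2 rfl
  obtain ⟨x1, x2, rfl⟩ := List.append_of_mem hp
  have hp1 : p ∉ x1 := by
    intro h
    obtain ⟨u, v, rfl⟩ := List.append_of_mem h
    have e : (u ++ p :: v) ++ p :: x2 = u ++ p :: (v ++ p :: x2) := by simp
    rw [e] at hx hL1 hL2 hok
    exact not_twice S hx hL1 hL2 hok
  have hp2 : p ∉ x2 := by
    intro h
    obtain ⟨v, r, rfl⟩ := List.append_of_mem h
    exact not_twice S hx hL1 hL2 hok
  obtain ⟨z1, z', e, h1, h'⟩ := gen_split S hx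
  obtain ⟨zp, z2, rfl, h3, h2⟩ := gen_split_cons S h'
  obtain ⟨y, hy⟩ := hok p (by simp)
  have h1' := gen_upd_not_mem S hp1 h1
  have h2' := gen_upd_not_mem S hp2 h2
  obtain ⟨⟨m, hm⟩, hne⟩ := hL2 _ (gen_append S h1' (gen_cons S hy h2'))
  have hmn : m ≠ n := by
    rintro rfl
    exact hne hm.symm
  have s1 := wd_sorted n
  rw [e, List.pairwise_append, List.pairwise_append] at s1
  have s2 := wd_sorted m
  rw [hm, List.pairwise_append, List.pairwise_append] at s2
  refine ⟨zp, h3, ?_⟩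
  have c1 : (1 : Fin 3) ∉ z1 := by
    intro h
    apply hmn
    have a1 : (0 : Fin 3) ∉ zp ++ z2 := fun h0 => absurd (s1.2.2 1 h 0 h0) (by decide)
    have a2 : (0 : Fin 3) ∉ y ++ z2 := fun h0 => absurd (s2.2.2 1 h 0 h0) (by decide)
    have b1 := wd_count n 0
    have b2 := wd_count m 0
    rw [e, List.count_append, List.count_eq_zero_of_not_mem a1] at b1
    rw [hm, List.count_append, List.count_eq_zero_of_not_mem a2] at b2
    omega
  have c2 : (1 : Fin 3) ∉ z2 := by
    intro h
    apply hmn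
    have a1 : (2 : Fin 3) ∉ z1 := fun h0 =>
      absurd (s1.2.2 2 h0 1 (List.mem_append_right _ h)) (by decide)
    have a2 : (2 : Fin 3) ∉ zp := fun h0 => absurd (s1.2.1.2.2 2 h0 1 h) (by decide)
    have a3 : (2 : Fin 3) ∉ y := fun h0 => absurd (s2.2.1.2.2 2 h0 1 h) (by decide)
    have b1 := wd_count n 2
    have b2 := wd_count m 2
    rw [e, List.count_append, List.count_append, List.count_eq_zero_of_not_mem a1,
      List.count_eq_zero_of_not_mem a2] at b1
    rw [hm, List.count_append, List.count_append, List.count_eq_zero_of_not_mem a1,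
      List.count_eq_zero_of_not_mem a3] at b2
    omega
  have b1 := wd_count n 1
  rw [e, List.count_append, List.count_append, List.count_eq_zero_of_not_mem c1,
    List.count_eq_zero_of_not_mem c2] at b1
  have := List.count_le_length (a := (1 : Fin 3)) (l := zp)
  omega

/-- the letters which may lead to a terminal word -/
def Okc (μ : List (S.A → Set (List S.A))) : Set S.A := {c | ∃ w, Gen S μ [c] w}

theorem eq_upd {h : S.A → Set (List S.A)} (h1 : {c | h c ≠ {[c]}}.ncard ≤ 1) (a : S.A) :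
    ∃ p W, h = upd p W := by
  have := S.finA
  rw [Set.ncard_le_one (Set.toFinite _)] at h1
  by_cases h2 : ∃ p, h p ≠ {[p]}
  · obtain ⟨p, hp⟩ := h2
    refine ⟨p, h p, ?_⟩
    funext c
    by_cases hc : c = p
    · rw [hc, upd_self]
    · rw [upd_ne _ hc]
      by_contra h3
      exact hc (h1 c h3 p hp)
  · push Not at h2
    refine ⟨a, {[a]}, ?_⟩
    funext c
    by_cases hc : c = a
    · rw [hc, upd_self]; exact h2 a
    · rw [upd_ne _ hc]; exact h2 c

theorem main_ind (hS : S.Restricted 1) (hL : S.lang ⊆ LL) {ρ : ℕ} (hρ1 : 1 ≤ ρ)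
    (hρ : ∀ h ∈ S.tables, ∀ c, ∀ u ∈ h c, u.length ≤ ρ) {n N0 : ℕ}
    (hmin : ∀ μ, (∀ h ∈ μ, h ∈ S.tables) → Gen S μ S.axm (wd n) → N0 ≤ μ.length)
    (μ : List (S.A → Set (List S.A))) :
    ∀ (x : List S.A) (π : List (S.A → Set (List S.A))), (∀ h ∈ π, h ∈ S.tables) →
      (∀ ν w, Gen S ν x w → Gen S (π ++ ν) S.axm w) → (∀ h ∈ μ, h ∈ S.tables) →
      Gen S μ x (wd n) → π.length + μ.length = N0 →
      μ.length ≤ (Okc S μ).ncard ∨ n ≤ ρ ^ (Nat.card S.A + 1) := by
  have hfin := S.finA
  induction μ with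
  | nil => intro x π _ _ _ _ _; left; simp
  | cons h μ ih =>
    intro x π hπ hπ2 hμ hx hlen
    obtain ⟨y, hr, hy⟩ := hx
    have hh : h ∈ S.tables := hμ h (by simp)
    have hμ' : ∀ h' ∈ μ, h' ∈ S.tables := fun h' hh' => hμ h' (by simp [hh'])
    have hπ' : ∀ h' ∈ π ++ [h], h' ∈ S.tables := by
      intro h' hh'
      rcases List.mem_append.1 hh' with h1 | h1
      · exact hπ _ h1
      · rw [List.mem_singleton] at h1
        rw [h1]; exact hh
    have hlen' : (π ++ [h]).length + μ.length = N0 := by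
      rw [List.length_append, List.length_singleton]
      rw [List.length_cons] at hlen
      omega
    have IH := ih y (π ++ [h]) hπ' (gen_concat S hπ2 hr) hμ' hy hlen'
    rcases IH with IH | IH
    swap
    · exact Or.inr IH
    obtain ⟨a, ha⟩ : ∃ a, a ∈ S.axm := List.exists_mem_of_ne_nil _ S.axm_ne
    obtain ⟨p, W, rfl⟩ := eq_upd S (hS h hh) a
    have hx : Gen S (upd p W :: μ) x (wd n) := ⟨y, hr, hy⟩
    by_cases hdel : ∀ c ∈ x, ∃ w, Gen S μ [c] w
    · right
      have t1 : ∀ h' ∈ π ++ (upd p W :: μ), h' ∈ S.tables := by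
        intro h' hh'
        rcases List.mem_append.1 hh' with h1 | h1
        · exact hπ _ h1
        · exact hμ _ h1
      have t2 : ∀ h' ∈ π ++ μ, h' ∈ S.tables := by
        intro h' hh'
        rcases List.mem_append.1 hh' with h1 | h1
        · exact hπ _ h1
        · exact hμ' _ h1
      have t3 : ∀ w, Gen S (upd p W :: μ) x w → w ∈ LL :=
        fun w hw => hL (der_of_gen S t1 (hπ2 _ _ hw))
      have t4 : ∀ w, Gen S μ x w → w ∈ LL ∧ w ≠ wd n := by
        intro w hw
        refine ⟨hL (der_of_gen S t2 (hπ2 _ _ hw)), ?_⟩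
        rintro rfl
        have := hmin (π ++ μ) t2 (hπ2 _ _ hw)
        rw [List.length_append] at this
        rw [List.length_cons] at hlen
        omega
      obtain ⟨zp, h1, h2⟩ := deletable S hx t3 t4 hdel
      have h3 := gen_length S (ρ := ρ) (fun h' hh' => hρ h' (hμ h' hh')) h1
      rw [List.length_singleton, one_mul] at h3
      refine h2.trans (h3.trans (Nat.pow_le_pow_right hρ1 ?_))
      rw [List.length_cons]
      have : (Okc S μ).ncard ≤ Nat.card S.A := Set.ncard_le_card _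
      omega
    · left
      push Not at hdel
      obtain ⟨c, hc, hc2⟩ := hdel
      have hcp : c = p := by
        by_contra hne
        obtain ⟨w, hw⟩ := ok_of_gen S hx c hc
        exact hc2 w ((gen_upd_iff S hne).1 hw)
      subst hcp
      have h1 : c ∉ Okc S μ := by
        rintro ⟨w, hw⟩
        exact hc2 w hw
      have h2 : Okc S (upd c W :: μ) = insert c (Okc S μ) := by
        ext d
        rw [Set.mem_insert_iff]
        by_cases hd : d = c
        · subst hd
          simp only [true_or, iff_true]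
          exact ok_of_gen S hx d hc
        · simp only [hd, false_or]
          constructor
          · rintro ⟨w, hw⟩; exact ⟨w, (gen_upd_iff S hd).1 hw⟩
          · rintro ⟨w, hw⟩; exact ⟨w, (gen_upd_iff S hd).2 hw⟩
      rw [h2, Set.ncard_insert_of_notMem h1 (Set.toFinite _), List.length_cons]
      omega

theorem exists_bound : ∃ ρ : ℕ, 1 ≤ ρ ∧ ∀ h ∈ S.tables, ∀ c, ∀ u ∈ h c, u.length ≤ ρ := by
  have hfin := S.finA
  have h1 : (⋃ h ∈ S.tables, ⋃ c, h c).Finite := by
    refine Set.Finite.biUnion S.tables_fin ?_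
    intro h hh
    exact Set.finite_iUnion (S.img_fin h hh)
  obtain ⟨ρ, hρ⟩ := (h1.image List.length).bddAbove
  refine ⟨ρ + 1, by omega, ?_⟩
  intro h hh c u hu
  have : u.length ∈ List.length '' (⋃ h ∈ S.tables, ⋃ c, h c) := by
    refine ⟨u, ?_, rfl⟩
    simp only [Set.mem_iUnion]
    exact ⟨h, hh, c, hu⟩
  have := hρ this
  omega

theorem not_one (hS : S.Restricted 1) : S.lang ≠ LL := by
  intro hL
  obtain ⟨ρ, hρ1, hρ⟩ := exists_bound S
  set n := S.axm.length * ρ ^ (Nat.card S.A) + ρ ^ (Nat.card S.A + 1) + 1 with hn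
  have h1 : wd n ∈ S.lang := by rw [hL]; exact ⟨n, rfl⟩
  have h2 : ∃ N, ∃ μ, (∀ h ∈ μ, h ∈ S.tables) ∧ Gen S μ S.axm (wd n) ∧ μ.length = N := by
    obtain ⟨μ, h3, h4⟩ := gen_of_der S h1
    exact ⟨_, μ, h3, h4, rfl⟩
  classical
  obtain ⟨μ, h3, h4, h5⟩ := Nat.find_spec h2
  have h6 : ∀ μ, (∀ h ∈ μ, h ∈ S.tables) → Gen S μ S.axm (wd n) → Nat.find h2 ≤ μ.length :=
    fun μ' h7 h8 => Nat.find_min' h2 ⟨μ', h7, h8, rfl⟩
  rcases main_ind S hS hL.le hρ1 hρ h6 μ S.axm [] (by simp) (fun ν w hw => hw) h3 h4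
    (by simpa using h5) with h7 | h7
  · have h8 : (Okc S μ).ncard ≤ Nat.card S.A := by
      have := S.finA
      exact Set.ncard_le_card _
    have h9 := gen_length S (ρ := ρ) (fun h' hh' => hρ h' (h3 h' hh')) h4
    have h10 : n ≤ (wd n).length := by
      have := List.count_le_length (a := (0 : Fin 3)) (l := wd n)
      rwa [wd_count] at this
    have h11 : S.axm.length * ρ ^ μ.length ≤ S.axm.length * ρ ^ (Nat.card S.A) :=
      Nat.mul_le_mul_left _ (Nat.pow_le_pow_right hρ1 (h7.trans h8))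
    omega
  · omega

end one

/-! ### a system for the language -/

/-- deterministic rewriting -/
theorem rew_det {A B : Type} {h : A → Set (List B)} {f : A → List B} (hf : ∀ c, h c = {f c})
    {x : List A} {y : List B} : Rew h x y ↔ y = x.flatMap f := by
  constructor
  · intro H
    induction H with
    | nil => rfl
    | cons hu _ ih =>
      rw [hf] at hu
      rw [List.flatMap_cons, ih, Set.mem_singleton_iff.1 hu]
  · rintro rfl
    induction x with
    | nil => exact Rew.nil
    | cons c x ih =>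
      rw [List.flatMap_cons]
      exact Rew.cons (by rw [hf]; rfl) ih

abbrev Ab := Fin 3 ⊕ Fin 3

def f1 : Ab → List Ab
  | Sum.inl i => [Sum.inl i]
  | Sum.inr i => [Sum.inl i, Sum.inr i]

def f2 : Ab → List Ab
  | Sum.inl i => [Sum.inl i]
  | Sum.inr _ => []

def h1 (c : Ab) : Set (List Ab) := {f1 c}
def h2 (c : Ab) : Set (List Ab) := {f2 c}

def sysL : Sys (Fin 3) where
  A := Ab
  finA := inferInstance
  ι := Sum.inl
  inj := Sum.inl_injective
  tables := {h1, h2}
  tables_fin := Set.toFinite _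
  tables_ne := ⟨h1, by simp⟩
  img_fin := by
    rintro h (rfl | rfl) c
    · exact Set.finite_singleton _
    · exact Set.finite_singleton _
  img_ne := by
    rintro h (rfl | rfl) c
    · exact Set.singleton_nonempty _
    · exact Set.singleton_nonempty _
  axm := [Sum.inr 0, Sum.inr 1, Sum.inr 2]
  axm_ne := by simp

def seg (e : Bool) (n : ℕ) (i : Fin 3) : List Ab :=
  List.replicate n (Sum.inl i) ++ (if e then [Sum.inr i] else [])

def form (e : Bool) (n : ℕ) : List Ab := seg e n 0 ++ (seg e n 1 ++ seg e n 2)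

theorem rep_flat (f : Ab → List Ab) (hf : ∀ i, f (Sum.inl i) = [Sum.inl i]) (n : ℕ) (i : Fin 3) :
    (List.replicate n (Sum.inl i : Ab)).flatMap f = List.replicate n (Sum.inl i) := by
  induction n with
  | zero => rfl
  | succ n ih => rw [List.replicate_succ, List.flatMap_cons, ih, hf]; rfl

theorem seg1 (n : ℕ) (i : Fin 3) : (seg true n i).flatMap f1 = seg true (n + 1) i := by
  unfold seg
  rw [List.flatMap_append, rep_flat f1 (fun _ => rfl), List.replicate_succ']
  simp [f1]

theorem seg2 (n : ℕ) (i : Fin 3) : (seg true n i).flatMap f2 = seg false n i := by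
  unfold seg
  rw [List.flatMap_append, rep_flat f2 (fun _ => rfl)]
  simp [f2]

theorem seg3 (f : Ab → List Ab) (hf : ∀ i, f (Sum.inl i) = [Sum.inl i]) (n : ℕ) (i : Fin 3) :
    (seg false n i).flatMap f = seg false n i := by
  unfold seg
  rw [List.flatMap_append, rep_flat f hf]
  simp

theorem form1 (n : ℕ) : (form true n).flatMap f1 = form true (n + 1) := by
  unfold form; rw [List.flatMap_append, List.flatMap_append, seg1, seg1, seg1]

theorem form2 (n : ℕ) : (form true n).flatMap f2 = form false n := by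
  unfold form; rw [List.flatMap_append, List.flatMap_append, seg2, seg2, seg2]

theorem form3 (f : Ab → List Ab) (hf : ∀ i, f (Sum.inl i) = [Sum.inl i]) (n : ℕ) :
    (form false n).flatMap f = form false n := by
  unfold form; rw [List.flatMap_append, List.flatMap_append, seg3 f hf, seg3 f hf, seg3 f hf]

theorem form_wd (n : ℕ) : form false n = (wd n).map Sum.inl := by
  unfold form seg wd
  simp

theorem sysL_inv {x : List Ab} (H : sysL.Der sysL.axm x) : ∃ e n, x = form e n := by
  induction H with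
  | refl => exact ⟨true, 0, rfl⟩
  | tail _ h ih =>
    obtain ⟨t, ht, hr⟩ := h
    obtain ⟨e, n, rfl⟩ := ih
    rcases ht with rfl | rfl
    · have := (rew_det (f := f1) (fun _ => rfl)).1 hr
      rw [this]
      cases e
      · exact ⟨false, n, form3 f1 (fun _ => rfl) n⟩
      · exact ⟨true, n + 1, form1 n⟩
    · have := (rew_det (f := f2) (fun _ => rfl)).1 hr
      rw [this]
      cases e
      · exact ⟨false, n, form3 f2 (fun _ => rfl) n⟩
      · exact ⟨false, n, form2 n⟩

theorem sysL_lang : sysL.lang = LL := by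
  ext w
  constructor
  · intro hw
    obtain ⟨e, n, h⟩ := sysL_inv hw
    have hmem : ∀ c ∈ form e n, ∃ i, c = Sum.inl i := by
      intro c hc
      rw [← h] at hc
      obtain ⟨i, _, rfl⟩ := List.mem_map.1 hc
      exact ⟨i, rfl⟩
    cases e
    · rw [form_wd] at h
      have : w = wd n := List.map_injective_iff.2 Sum.inl_injective h
      exact ⟨n, this.symm⟩
    · exfalso
      obtain ⟨i, hi⟩ := hmem (Sum.inr 0) (by simp [form, seg])
      simp at hi
  · rintro ⟨n, rfl⟩
    have h1' : sysL.Der sysL.axm (form true n) := by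
      induction n with
      | zero => exact Relation.ReflTransGen.refl
      | succ n ih =>
        exact ih.tail ⟨h1, Or.inl rfl, (rew_det (f := f1) (fun _ => rfl)).2 (form1 n).symm⟩
    have h2' : sysL.Der sysL.axm (form false n) :=
      h1'.tail ⟨h2, Or.inr rfl, (rew_det (f := f2) (fun _ => rfl)).2 (form2 n).symm⟩
    rw [form_wd] at h2'
    exact h2'

end Pool.Agent.H882R2.ET0L
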