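import Pool.Agent.H882R2.ET0L

set_option autoImplicit false

namespace Pool.Agent.H882R2.ET0L

section
variable {T : Type} (M : Ctl T)

theorem gd_inj : Function.Injective (gd M) := by
  intro a b h
  have := Option.some.inj h
  exact Sum.inr.inj this

theorem lt_inj : Function.Injective (lt M) := by
  intro a b h
  have := Option.some.inj h
  exact Sum.inl.inj this

/-! ### how the tables act on the guard part and on the main part -/

theorem opT_gd (o : M.Q × M.L × Set (List M.L)) {p : List M.Q} {z : List (Ltr M)}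
    (H : Rew (opT M o) (p.map (gd M)) z) : fl M ∈ z ∨ (o.1 ∉ p ∧ z = p.map (gd M)) := by
  classical
  by_cases h : o.1 ∈ p
  · left
    refine H.mem_out (c := gd M o.1) (List.mem_map_of_mem h) ?_
    intro u hu
    simp only [opT, if_neg (by simp : ¬ gd M o.1 = lt M o.2.1), if_true] at hu
    rw [Set.mem_singleton_iff] at hu
    rw [hu]; simp
  · right
    refine ⟨h, ?_⟩
    refine H.eq_self ?_
    intro c hc
    obtain ⟨q, hq, rfl⟩ := List.mem_map.1 hc
    have : q ≠ o.1 := by rintro rfl; exact h hq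
    simp [opT, this]

theorem opT_gd' (o : M.Q × M.L × Set (List M.L)) {p : List M.Q} (h : o.1 ∉ p) :
    Rew (opT M o) (p.map (gd M)) (p.map (gd M)) := by
  classical
  refine Rew.self ?_
  intro c hc
  obtain ⟨q, hq, rfl⟩ := List.mem_map.1 hc
  have : q ≠ o.1 := by rintro rfl; exact h hq
  simp [opT, this]

theorem opT_lt (o : M.Q × M.L × Set (List M.L)) (w : List M.L) (z : List (Ltr M)) :
    Rew (opT M o) (w.map (lt M)) z ↔ ∃ w', z = w'.map (lt M) ∧ Rew (upd o.2.1 o.2.2) w w' := by
  classical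
  rw [Rew.map_left]
  have : (fun c => opT M o (lt M c)) = fun c => (List.map (lt M)) '' (upd o.2.1 o.2.2 c) := by
    funext c
    by_cases h : c = o.2.1
    · subst h; simp [opT, upd]
    · have : lt M c ≠ lt M o.2.1 := fun e => h (lt_inj M e)
      simp only [opT, upd, if_neg this, if_neg h]
      simp
  rw [this, Rew.map_right]

open Classical in
/-- the effect of a move on the guards -/
noncomputable def mvf (m : M.Q × M.Q × Option M.L) (x : M.Q) : M.Q := if x = m.2.1 then m.1 else x

theorem mvT_gd (m : M.Q × M.Q × Option M.L) (hm : m.1 ≠ m.2.1) {p : List M.Q} {z : List (Ltr M)}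
    (H : Rew (mvT M m) (p.map (gd M)) z) :
    fl M ∈ z ∨ (m.1 ∉ p ∧ z = (p.map (mvf M m)).map (gd M)) := by
  classical
  by_cases h : m.1 ∈ p
  · left
    refine H.mem_out (c := gd M m.1) (List.mem_map_of_mem h) ?_
    intro u hu
    have h1 : gd M m.1 ≠ gd M m.2.1 := fun e => hm (gd_inj M e)
    simp only [mvT, if_neg h1, if_true] at hu
    rw [Set.mem_singleton_iff] at hu
    rw [hu]; simp
  · right
    refine ⟨h, ?_⟩
    rw [Rew.map_left] at H
    rw [List.map_map]
    refine H.eq_map ?_
    intro q hq u hu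
    have h1 : q ≠ m.1 := by rintro rfl; exact h hq
    by_cases h2 : q = m.2.1
    · simp only [mvT, h2, if_true] at hu
      rw [Set.mem_singleton_iff] at hu
      simp [hu, mvf, h2]
    · have h3 : gd M q ≠ gd M m.2.1 := fun e => h2 (gd_inj M e)
      have h4 : gd M q ≠ gd M m.1 := fun e => h1 (gd_inj M e)
      have h5 : ¬ ∃ a ∈ m.2.2, gd M q = lt M a := by rintro ⟨a, _, e⟩; simp at e
      simp only [mvT, if_neg h3, if_neg h4, if_neg h5] at hu
      rw [Set.mem_singleton_iff] at hu
      simp [hu, mvf, h2]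

theorem mvT_gd' (m : M.Q × M.Q × Option M.L) {p : List M.Q} (h : m.1 ∉ p) :
    Rew (mvT M m) (p.map (gd M)) ((p.map (mvf M m)).map (gd M)) := by
  classical
  rw [Rew.map_left, List.map_map]
  refine Rew.of_map ?_
  intro q hq
  have h1 : q ≠ m.1 := by rintro rfl; exact h hq
  by_cases h2 : q = m.2.1
  · simp [mvT, mvf, h2]
  · have h3 : gd M q ≠ gd M m.2.1 := fun e => h2 (gd_inj M e)
    have h4 : gd M q ≠ gd M m.1 := fun e => h1 (gd_inj M e)
    have h5 : ¬ ∃ a ∈ m.2.2, gd M q = lt M a := by rintro ⟨a, _, e⟩; simp at e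
    simp only [mvT, if_neg h3, if_neg h4, if_neg h5]
    simp [mvf, h2]

theorem mvT_lt (m : M.Q × M.Q × Option M.L) {w : List M.L} {z : List (Ltr M)}
    (H : Rew (mvT M m) (w.map (lt M)) z) :
    fl M ∈ z ∨ ((∀ a ∈ m.2.2, a ∉ w) ∧ z = w.map (lt M)) := by
  classical
  by_cases h : ∀ a ∈ m.2.2, a ∉ w
  · right
    refine ⟨h, H.eq_self ?_⟩
    intro c hc
    obtain ⟨q, hq, rfl⟩ := List.mem_map.1 hc
    have h5 : ¬ ∃ a ∈ m.2.2, lt M q = lt M a := by
      rintro ⟨a, ha, e⟩
      exact h a ha (lt_inj M e ▸ hq)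
    simp only [mvT, if_neg (by simp : ¬ lt M q = gd M m.2.1), if_neg (by simp : ¬ lt M q = gd M m.1),
      if_neg h5]
  · left
    push Not at h
    obtain ⟨a, ha, haw⟩ := h
    refine H.mem_out (c := lt M a) (List.mem_map_of_mem haw) ?_
    intro u hu
    have h5 : ∃ b ∈ m.2.2, lt M a = lt M b := ⟨a, ha, rfl⟩
    simp only [mvT, if_neg (by simp : ¬ lt M a = gd M m.2.1), if_neg (by simp : ¬ lt M a = gd M m.1),
      if_pos h5] at hu
    rw [Set.mem_singleton_iff] at hu
    rw [hu]; simp

theorem mvT_lt' (m : M.Q × M.Q × Option M.L) {w : List M.L} (h : ∀ a ∈ m.2.2, a ∉ w) :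
    Rew (mvT M m) (w.map (lt M)) (w.map (lt M)) := by
  classical
  refine Rew.self ?_
  intro c hc
  obtain ⟨q, hq, rfl⟩ := List.mem_map.1 hc
  have h5 : ¬ ∃ a ∈ m.2.2, lt M q = lt M a := by
    rintro ⟨a, ha, e⟩
    exact h a ha (lt_inj M e ▸ hq)
  simp only [mvT, if_neg (by simp : ¬ lt M q = gd M m.2.1), if_neg (by simp : ¬ lt M q = gd M m.1),
    if_neg h5]
  simp

open Classical in
theorem erT_gd (q : M.Q) (hq : q ≠ M.qf) {p : List M.Q} {z : List (Ltr M)}
    (H : Rew (erT M q) (p.map (gd M)) z) :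
    fl M ∈ z ∨ (M.qf ∉ p ∧ z = (p.filter (fun x => x ≠ q)).map (gd M)) := by
  by_cases h : M.qf ∈ p
  · left
    refine H.mem_out (c := gd M M.qf) (List.mem_map_of_mem h) ?_
    intro u hu
    have h1 : gd M M.qf ≠ gd M q := fun e => hq (gd_inj M e).symm
    simp only [erT, if_neg h1, if_true] at hu
    rw [Set.mem_singleton_iff] at hu
    rw [hu]; simp
  · right
    refine ⟨h, ?_⟩
    induction p generalizing z with
    | nil => rw [List.map_nil] at H; rw [H.nil_left]; rfl
    | cons x p ih =>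
      rw [List.map_cons] at H
      cases H with
      | cons hu hr =>
        have hx : x ≠ M.qf := by rintro rfl; exact h (by simp)
        have := ih hr (fun e => h (by simp [e]))
        rw [this]
        by_cases hxq : x = q
        · subst hxq
          simp only [erT, if_true] at hu
          rw [Set.mem_singleton_iff] at hu
          simp [hu]
        · have h3 : gd M x ≠ gd M q := fun e => hxq (gd_inj M e)
          have h4 : gd M x ≠ gd M M.qf := fun e => hx (gd_inj M e)
          simp only [erT, if_neg h3, if_neg h4] at hu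
          rw [Set.mem_singleton_iff] at hu
          simp [hu, hxq]

open Classical in
theorem erT_gd' (q : M.Q) {p : List M.Q} (h : M.qf ∉ p) :
    Rew (erT M q) (p.map (gd M)) ((p.filter (fun x => x ≠ q)).map (gd M)) := by
  induction p with
  | nil => exact Rew.nil
  | cons x p ih =>
    have hx : x ≠ M.qf := by rintro rfl; exact h (by simp)
    have h0 := ih (fun e => h (by simp [e]))
    by_cases hxq : x = q
    · subst hxq
      have := Rew.cons (h := erT M x) (c := gd M x) (u := []) (by simp [erT]) h0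
      simpa using this
    · have h3 : gd M x ≠ gd M q := fun e => hxq (gd_inj M e)
      have h4 : gd M x ≠ gd M M.qf := fun e => hx (gd_inj M e)
      have := Rew.cons (h := erT M q) (c := gd M x) (u := [gd M x])
        (by simp only [erT, if_neg h3, if_neg h4]; simp) h0
      simpa [hxq] using this

theorem erT_lt (q : M.Q) {w : List M.L} {z : List (Ltr M)}
    (H : Rew (erT M q) (w.map (lt M)) z) : z = w.map (lt M) := by
  classical
  refine H.eq_self ?_
  intro c hc
  obtain ⟨a, ha, rfl⟩ := List.mem_map.1 hc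
  simp [erT]

theorem erT_lt' (q : M.Q) (w : List M.L) : Rew (erT M q) (w.map (lt M)) (w.map (lt M)) := by
  classical
  refine Rew.self ?_
  intro c hc
  obtain ⟨a, ha, rfl⟩ := List.mem_map.1 hc
  simp [erT]

/-! ### soundness -/

/-- guards list: all states but `q` -/
def Hole (q : M.Q) (p : List M.Q) : Prop := ∀ x, x ∈ p ↔ x ≠ q

def Inv (v : List (Ltr M)) : Prop :=
  fl M ∈ v ∨
  (∃ (q : M.Q) (p : List M.Q) (w : List M.L),
    v = p.map (gd M) ++ w.map (lt M) ∧ Hole M q p ∧ M.Reach q w) ∨
  (∃ (p : List M.Q) (w : List M.L), v = p.map (gd M) ++ w.map (lt M) ∧ M.Reach M.qf w)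

theorem Hole.mv {m : M.Q × M.Q × Option M.L} (hm : m.1 ≠ m.2.1) {p : List M.Q}
    (h : Hole M m.1 p) : Hole M m.2.1 (p.map (mvf M m)) := by
  classical
  intro x
  rw [List.mem_map]
  constructor
  · rintro ⟨y, hy, rfl⟩
    by_cases h1 : y = m.2.1
    · simpa [mvf, h1] using hm
    · simpa [mvf, h1] using h1
  · intro hx
    by_cases h1 : x = m.1
    · refine ⟨m.2.1, (h _).2 (Ne.symm hm), ?_⟩
      simp [mvf, h1]
    · exact ⟨x, (h x).2 h1, by simp [mvf, hx]⟩

theorem fl_left {z z' : List (Ltr M)} (h : fl M ∈ z) : Inv M (z ++ z') :=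
  Or.inl (List.mem_append_left _ h)

theorem fl_right {z z' : List (Ltr M)} (h : fl M ∈ z') : Inv M (z ++ z') :=
  Or.inl (List.mem_append_right _ h)

theorem Inv.step (hin : M.Inert) {v v' : List (Ltr M)} (hv : Inv M v) {h : Ltr M → Set (List (Ltr M))}
    (hh : h ∈ tabs M) (H : Rew h v v') : Inv M v' := by
  classical
  rcases hv with hf | ⟨q, p, w, rfl, hp, hr⟩ | ⟨p, w, rfl, hr⟩
  · left
    refine H.mem_out hf ?_
    rcases hh with ((⟨o, ho, rfl⟩ | ⟨m, hm, rfl⟩) | ⟨q, hq, rfl⟩) | rfl
    · intro u hu; simp [opT] at hu; simp [hu]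
    · intro u hu; simp [mvT] at hu; simp [hu]
    · intro u hu; simp [erT] at hu; simp [hu]
    · intro u hu; simp [idT] at hu; simp [hu]
  · obtain ⟨z1, z2, rfl, H1, H2⟩ := H.split
    rcases hh with ((⟨o, ho, rfl⟩ | ⟨m, hm, rfl⟩) | ⟨q1, hq, rfl⟩) | rfl
    · rcases opT_gd M o H1 with hf | ⟨h1, rfl⟩
      · exact fl_left M hf
      obtain ⟨w', rfl, h2⟩ := (opT_lt M o w z2).1 H2
      have hq : o.1 = q := by
        by_contra hne
        exact h1 ((hp _).2 hne)
      right; left
      refine ⟨q, p, w', rfl, hp, Ctl.Reach.op hr ?_ h2⟩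
      rw [← hq]; exact ho
    · rcases mvT_gd M m (M.mvs_ne m hm) H1 with hf | ⟨h1, rfl⟩
      · exact fl_left M hf
      rcases mvT_lt M m H2 with hf | ⟨h2, rfl⟩
      · exact fl_right M hf
      have hq : m.1 = q := by
        by_contra hne
        exact h1 ((hp _).2 hne)
      subst hq
      right; left
      exact ⟨m.2.1, _, w, rfl, Hole.mv M (M.mvs_ne m hm) hp, Ctl.Reach.mv hr hm h2⟩
    · rcases erT_gd M q1 hq H1 with hf | ⟨h1, rfl⟩
      · exact fl_left M hf
      have h2 := erT_lt M q1 H2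
      subst h2
      have hq : M.qf = q := by
        by_contra hne
        exact h1 ((hp _).2 hne)
      subst hq
      right; right
      exact ⟨_, w, rfl, hr⟩
    · have e1 := H1.eq_self (fun c _ => rfl)
      have e2 := H2.eq_self (fun c _ => rfl)
      subst e1; subst e2
      right; left
      exact ⟨q, p, w, rfl, hp, hr⟩
  · obtain ⟨z1, z2, rfl, H1, H2⟩ := H.split
    rcases hh with ((⟨o, ho, rfl⟩ | ⟨m, hm, rfl⟩) | ⟨q1, hq, rfl⟩) | rfl
    · rcases opT_gd M o H1 with hf | ⟨h1, rfl⟩
      · exact fl_left M hf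
      obtain ⟨w', rfl, h2⟩ := (opT_lt M o w z2).1 H2
      have : w' = w := h2.eq_self (fun c hc => upd_ne _ (hin w hr c hc o ho))
      subst this
      right; right
      exact ⟨p, w', rfl, hr⟩
    · rcases mvT_gd M m (M.mvs_ne m hm) H1 with hf | ⟨h1, rfl⟩
      · exact fl_left M hf
      rcases mvT_lt M m H2 with hf | ⟨h2, rfl⟩
      · exact fl_right M hf
      right; right
      exact ⟨_, w, rfl, hr⟩
    · rcases erT_gd M q1 hq H1 with hf | ⟨h1, rfl⟩
      · exact fl_left M hf
      have h2 := erT_lt M q1 H2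
      subst h2
      right; right
      exact ⟨_, w, rfl, hr⟩
    · have e1 := H1.eq_self (fun c _ => rfl)
      have e2 := H2.eq_self (fun c _ => rfl)
      subst e1; subst e2
      right; right
      exact ⟨p, w, rfl, hr⟩

theorem Inv.der (hin : M.Inert) {v : List (Ltr M)} (H : (sim M).Der (sim M).axm v) : Inv M v := by
  induction H with
  | refl => exact Or.inr (Or.inl ⟨M.q0, gds M, M.ax, rfl, mem_gds M, Ctl.Reach.start⟩)
  | tail _ h ih =>
    obtain ⟨t, ht, hr⟩ := h
    exact Inv.step M hin ih ht hr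

theorem sound (hin : M.Inert) {z : List T} (hz : z ∈ (sim M).lang) : z ∈ M.lang := by
  have H : Inv M (z.map fun t => lt M (M.ι t)) := Inv.der M hin hz
  have key : ∀ (p : List M.Q) (w : List M.L),
      (z.map fun t => lt M (M.ι t)) = p.map (gd M) ++ w.map (lt M) → p = [] ∧ w = z.map M.ι := by
    intro p w e
    have hp : p = [] := by
      rcases p with _ | ⟨x, p⟩
      · rfl
      · exfalso
        have : gd M x ∈ (z.map fun t => lt M (M.ι t)) := by rw [e]; simp
        obtain ⟨t, _, ht⟩ := List.mem_map.1 this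
        simp at ht
    subst hp
    refine ⟨rfl, ?_⟩
    have e' : (z.map M.ι).map (lt M) = w.map (lt M) := by
      rw [List.map_map]; exact e
    exact ((List.map_injective_iff.2 (lt_inj M)) e').symm
  rcases H with hf | ⟨q, p, w, e, hp, hr⟩ | ⟨p, w, e, hr⟩
  · exfalso
    obtain ⟨t, _, ht⟩ := List.mem_map.1 hf
    simp at ht
  · obtain ⟨rfl, rfl⟩ := key p w e
    have : M.qf = q := by
      by_contra hne
      have := (hp M.qf).2 hne
      simp at this
    rw [← this] at hr
    exact hr
  · obtain ⟨rfl, rfl⟩ := key p w e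
    exact hr

/-! ### completeness -/

theorem Der.of_reach {q : M.Q} {w : List M.L} (hr : M.Reach q w) :
    ∃ p, Hole M q p ∧ (sim M).Der (sim M).axm (p.map (gd M) ++ w.map (lt M)) := by
  induction hr with
  | start => exact ⟨gds M, mem_gds M, Relation.ReflTransGen.refl⟩
  | @op q w w' a W _ ho h ih =>
    obtain ⟨p, hp, hd⟩ := ih
    refine ⟨p, hp, hd.tail ⟨opT M (q, a, W), Or.inl (Or.inl (Or.inl ⟨_, ho, rfl⟩)), ?_⟩⟩
    refine Rew.append (opT_gd' M (q, a, W) ?_) ((opT_lt M (q, a, W) w _).2 ⟨w', rfl, h⟩)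
    intro hq
    exact ((hp q).1 hq) rfl
  | @mv q q' w o _ hm h ih =>
    obtain ⟨p, hp, hd⟩ := ih
    refine ⟨p.map (mvf M (q, q', o)), Hole.mv M (m := (q, q', o)) (M.mvs_ne _ hm) hp,
      hd.tail ⟨mvT M (q, q', o), Or.inl (Or.inl (Or.inr ⟨_, hm, rfl⟩)), ?_⟩⟩
    refine Rew.append (mvT_gd' M (q, q', o) ?_) (mvT_lt' M (q, q', o) h)
    intro hq
    exact ((hp q).1 hq) rfl

theorem Der.erase (w : List M.L) (n : ℕ) : ∀ (p : List M.Q), p.length ≤ n → M.qf ∉ p →
    (sim M).Der (p.map (gd M) ++ w.map (lt M)) (w.map (lt M)) := by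
  classical
  induction n with
  | zero =>
    intro p hn _
    have : p = [] := List.length_eq_zero_iff.1 (by omega)
    subst this
    exact Relation.ReflTransGen.refl
  | succ n ih =>
    intro p hn hp
    rcases p with _ | ⟨x, p⟩
    · exact Relation.ReflTransGen.refl
    · have hx : x ≠ M.qf := by rintro rfl; exact hp (by simp)
      have h1 : Rew (erT M x) ((x :: p).map (gd M) ++ w.map (lt M))
          (((x :: p).filter (fun y => y ≠ x)).map (gd M) ++ w.map (lt M)) :=
        Rew.append (erT_gd' M x hp) (erT_lt' M x w)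
      refine Relation.ReflTransGen.head ⟨erT M x, Or.inl (Or.inr ⟨x, hx, rfl⟩), h1⟩ (ih _ ?_ ?_)
      · have h2 : (x :: p).filter (fun y => y ≠ x) = p.filter (fun y => y ≠ x) := by simp
        rw [h2]
        have := List.length_filter_le (fun y => decide (y ≠ x)) p
        simp only [List.length_cons] at hn
        omega
      · intro hm
        exact hp (List.mem_filter.1 hm).1

theorem complete {z : List T} (hz : z ∈ M.lang) : z ∈ (sim M).lang := by
  obtain ⟨p, hp, hd⟩ := Der.of_reach M hz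
  have hqf : M.qf ∉ p := fun h => (hp _).1 h rfl
  have := Relation.ReflTransGen.trans hd (Der.erase M (z.map M.ι) p.length p le_rfl hqf)
  have e : (z.map M.ι).map (lt M) = z.map (sim M).ι := by rw [List.map_map]; rfl
  show (sim M).Der (sim M).axm (z.map (sim M).ι)
  exact e ▸ this

theorem sim_lang (hin : M.Inert) : (sim M).lang = M.lang :=
  Set.Subset.antisymm (fun _ h => sound M hin h) (fun _ h => complete M h)

end

end Pool.Agent.H882R2.ET0L
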