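import Pool.Agent.H882R2.ET0LFin

/-!
# Two letters suffice

Every checked letter `x` has two guard letters `g x` and `r x`. A rewriting of `x` fails when `r x`
is present, erasing `r x` fails when `g x` is present, and erasing `g x` fails when `x` is present.
So producing `g x` and `r x` is an assertion that `x` is absent.
-/

set_option autoImplicit false

namespace Pool.Agent.H882R2.ET0L

/-- the three kinds of letters -/
inductive Kd
  | w
  | g
  | r
deriving DecidableEq

instance : Finite Kd := by
  refine Finite.of_injective (fun k : Kd => match k with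
    | Kd.w => (0 : Fin 3)
    | Kd.g => 1
    | Kd.r => 2) ?_
  intro a b h
  cases a <;> cases b <;> simp_all

open Classical in
/-- change the letter `a` to the words of `W` and the letter `b` to those of `V` -/
noncomputable def two {B : Type} (a : B) (W : Set (List B)) (b : B) (V : Set (List B)) (c : B) :
    Set (List B) :=
  if c = a then W else if c = b then V else {[c]}

section two
variable {B : Type} {a b f : B} {W : Set (List B)}

theorem two_cases (hab : b ≠ a) {v v' : List B} (H : Rew (two a W b {[f]}) v v') :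
    f ∈ v' ∨ (b ∉ v ∧ a ∉ v ∧ v' = v) ∨ (b ∉ v ∧ a ∈ v ∧ Rew (upd a W) v v') := by
  classical
  by_cases hb : b ∈ v
  · left
    refine H.mem_out hb ?_
    intro u hu
    simp only [two, if_neg hab, if_true] at hu
    rw [Set.mem_singleton_iff] at hu
    rw [hu]; simp
  · right
    by_cases ha : a ∈ v
    · right
      refine ⟨hb, ha, H.refine ?_⟩
      intro c hc u hu _
      by_cases h1 : c = a
      · subst h1
        simp only [two, if_true] at hu
        rw [upd_self]; exact hu
      · have h2 : c ≠ b := by rintro rfl; exact hb hc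
        simp only [two, if_neg h1, if_neg h2] at hu
        rw [upd_ne _ h1]; exact hu
    · left
      refine ⟨hb, ha, H.eq_self ?_⟩
      intro c hc
      have h1 : c ≠ a := by rintro rfl; exact ha hc
      have h2 : c ≠ b := by rintro rfl; exact hb hc
      simp only [two, if_neg h1, if_neg h2]

theorem two_a (a : B) (W : Set (List B)) (b : B) (V : Set (List B)) : two a W b V a = W := by
  simp [two]

theorem two_ne {a b c : B} (W V : Set (List B)) (h1 : c ≠ a) (h2 : c ≠ b) :
    two a W b V c = {[c]} := by
  simp [two, h1, h2]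

theorem two_erase (V : Set (List B)) (p : B → Bool) (hp : ∀ c, p c = true ↔ c ≠ a)
    {v : List B} (hb : b ∉ v) : Rew (two a {[]} b V) v (v.filter p) := by
  induction v with
  | nil => exact Rew.nil
  | cons c v ih =>
    have h0 := ih (fun e => hb (by simp [e]))
    have h2 : c ≠ b := by rintro rfl; exact hb (by simp)
    by_cases h1 : c = a
    · subst h1
      have := Rew.cons (h := two c {[]} b V) (c := c) (u := []) (by rw [two_a]; rfl) h0
      have h3 : ¬ p c = true := fun h => (hp c).1 h rfl
      rw [List.filter_cons_of_neg h3]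
      exact this
    · have := Rew.cons (h := two a {[]} b V) (c := c) (u := [c])
        (by rw [two_ne _ _ h1 h2]; rfl) h0
      rw [List.filter_cons_of_pos ((hp c).2 h1)]
      exact this

theorem Rew.filterMap {A D : Type} {h : B → Set (List A)} {f : B → Option D} {g : A → Option D}
    {R : D → Set (List D)} {v : List B} {v' : List A} (H : Rew h v v')
    (hR : ∀ c ∈ v, ∀ u ∈ h c, Rew R ([c].filterMap f) (u.filterMap g)) :
    Rew R (v.filterMap f) (v'.filterMap g) := by
  induction H with
  | nil => exact Rew.nil
  | @cons c u x y hu _ ih =>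
    have h1 : (c :: x).filterMap f = [c].filterMap f ++ x.filterMap f := by
      rw [← List.filterMap_append]; rfl
    rw [h1, List.filterMap_append]
    exact Rew.append (hR c (by simp) u hu) (ih fun d hd => hR d (by simp [hd]))

end two

section sim2
variable {T : Type} (M : Ctl T)

/-- checked letters: main letters and control letters -/
abbrev Ck := M.L ⊕ M.Q

/-- letters of the simulating system -/
abbrev Lt2 := Option (Ck M × Kd)

abbrev wl (x : Ck M) : Lt2 M := some (x, Kd.w)
abbrev gl (x : Ck M) : Lt2 M := some (x, Kd.g)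
abbrev rl (x : Ck M) : Lt2 M := some (x, Kd.r)
/-- main letters -/
abbrev ml (a : M.L) : Lt2 M := wl M (Sum.inl a)
/-- control letters -/
abbrev ql (q : M.Q) : Lt2 M := wl M (Sum.inr q)

/-- the other states -/
noncomputable def others (q : M.Q) : List M.Q := by
  haveI := M.finQ
  haveI := Fintype.ofFinite M.Q
  classical exact (Finset.univ.erase q).toList

theorem mem_others (q x : M.Q) : x ∈ others M q ↔ x ≠ q := by
  classical
  unfold others; simp

/-- assert that the control is in state `q` -/
noncomputable def plugs (q : M.Q) : List (Lt2 M) :=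
  (others M q).flatMap fun x => [gl M (Sum.inr x), rl M (Sum.inr x)]

/-- assert the absence of a letter -/
def chk : Option M.L → List (Lt2 M)
  | none => []
  | some a => [gl M (Sum.inl a), rl M (Sum.inl a)]

/-- the words of an operation -/
def opW (o : M.Q × M.L × Set (List M.L)) : Set (List (Lt2 M)) :=
  {v | ∃ x ∈ o.2.2, v = x.map (ml M) ++ plugs M o.1}

noncomputable def t2 (x : Ck M) (i : Kd) (W : Set (List (Lt2 M))) (j : Kd) :
    Lt2 M → Set (List (Lt2 M)) := two (some (x, i)) W (some (x, j)) {[none]}

noncomputable def op2 (o : M.Q × M.L × Set (List M.L)) : Lt2 M → Set (List (Lt2 M)) :=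
  t2 M (Sum.inl o.2.1) Kd.w (opW M o) Kd.r

noncomputable def mv2 (m : M.Q × M.Q × Option M.L) : Lt2 M → Set (List (Lt2 M)) :=
  t2 M (Sum.inr m.1) Kd.w {ql M m.2.1 :: chk M m.2.2} Kd.r

noncomputable def cg2 (x : Ck M) : Lt2 M → Set (List (Lt2 M)) := t2 M x Kd.g {[]} Kd.w

noncomputable def cr2 (x : Ck M) : Lt2 M → Set (List (Lt2 M)) := t2 M x Kd.r {[]} Kd.g

noncomputable def fin2 : Lt2 M → Set (List (Lt2 M)) := t2 M (Sum.inr M.qf) Kd.w {[]} Kd.r

def tabs2 : Set (Lt2 M → Set (List (Lt2 M))) :=
  (op2 M '' M.ops) ∪ (mv2 M '' M.mvs) ∪ (Set.range (cg2 M)) ∪ (Set.range (cr2 M)) ∪ {fin2 M}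

/-- every table has the same shape -/
theorem tabs2_shape {h : Lt2 M → Set (List (Lt2 M))} (hh : h ∈ tabs2 M) :
    ∃ x i W j, h = t2 M x i W j ∧ j ≠ i ∧ W.Finite ∧ W.Nonempty := by
  rcases hh with (((⟨o, ho, rfl⟩ | ⟨m, hm, rfl⟩) | ⟨x, rfl⟩) | ⟨x, rfl⟩) | rfl
  · refine ⟨_, _, _, _, rfl, by decide, ?_, ?_⟩
    · refine ((M.ops_img o ho).1.image fun x => x.map (ml M) ++ plugs M o.1).subset ?_
      rintro v ⟨x, hx, rfl⟩
      exact ⟨x, hx, rfl⟩
    · obtain ⟨x, hx⟩ := (M.ops_img o ho).2
      exact ⟨_, x, hx, rfl⟩
  · exact ⟨_, _, _, _, rfl, by decide, Set.finite_singleton _, Set.singleton_nonempty _⟩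
  · exact ⟨_, _, _, _, rfl, by decide, Set.finite_singleton _, Set.singleton_nonempty _⟩
  · exact ⟨_, _, _, _, rfl, by decide, Set.finite_singleton _, Set.singleton_nonempty _⟩
  · exact ⟨_, _, _, _, rfl, by decide, Set.finite_singleton _, Set.singleton_nonempty _⟩

noncomputable def sim2 : Sys T where
  A := Lt2 M
  finA := by have := M.finQ; have := M.finL; infer_instance
  ι := fun t => ml M (M.ι t)
  inj := by
    intro a b h
    exact M.inj (by simpa using h)
  tables := tabs2 M
  tables_fin := by
    have := M.finQ; have := M.finL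
    refine Set.Finite.union (Set.Finite.union (Set.Finite.union (Set.Finite.union ?_ ?_) ?_) ?_)
      (Set.finite_singleton _)
    · exact M.ops_fin.image _
    · exact (Set.toFinite _).image _
    · exact Set.finite_range _
    · exact Set.finite_range _
  tables_ne := ⟨fin2 M, Or.inr rfl⟩
  img_fin := by
    classical
    intro h hh c
    obtain ⟨x, i, W, j, rfl, _, h1, _⟩ := tabs2_shape M hh
    unfold t2 two
    split_ifs
    · exact h1
    · exact Set.finite_singleton _
    · exact Set.finite_singleton _
  img_ne := by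
    classical
    intro h hh c
    obtain ⟨x, i, W, j, rfl, _, _, h1⟩ := tabs2_shape M hh
    unfold t2 two
    split_ifs
    · exact h1
    · exact Set.singleton_nonempty _
    · exact Set.singleton_nonempty _
  axm := ql M M.q0 :: M.ax.map (ml M)
  axm_ne := by simp

theorem sim2_restricted : (sim2 M).Restricted 2 := by
  classical
  intro h hh
  obtain ⟨x, i, W, j, rfl, _, _, _⟩ := tabs2_shape M hh
  have h0 : {c | t2 M x i W j c ≠ {[c]}} ⊆ {some (x, i), some (x, j)} := by
    intro c hc
    by_contra hn
    simp only [Set.mem_insert_iff, Set.mem_singleton_iff, not_or] at hn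
    exact hc (two_ne _ _ hn.1 hn.2)
  refine (Set.ncard_le_ncard h0 (Set.toFinite _)).trans ?_
  exact (Set.ncard_insert_le _ _).trans (by simp)

/-! ### soundness -/

/-- words which never lead to a terminal word -/
def Dead (v : List (Lt2 M)) : Prop :=
  none ∈ v ∨ ∃ x, wl M x ∈ v ∧ gl M x ∈ v ∧ rl M x ∈ v

def mainP : Lt2 M → Option M.L
  | some (Sum.inl a, Kd.w) => some a
  | _ => none

def tokP : Lt2 M → Option M.Q
  | some (Sum.inr q, Kd.w) => some q
  | _ => none

theorem mainP_eq {c : Lt2 M} {a : M.L} : mainP M c = some a ↔ c = ml M a := by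
  constructor
  · intro h
    rcases c with _ | ⟨x | q, _ | _ | _⟩ <;> simp_all [mainP]
  · rintro rfl; rfl

theorem tokP_eq {c : Lt2 M} {q : M.Q} : tokP M c = some q ↔ c = ql M q := by
  constructor
  · intro h
    rcases c with _ | ⟨x | q, _ | _ | _⟩ <;> simp_all [tokP]
  · rintro rfl; rfl

theorem mem_main {v : List (Lt2 M)} {a : M.L} : a ∈ v.filterMap (mainP M) ↔ ml M a ∈ v := by
  rw [List.mem_filterMap]
  constructor
  · rintro ⟨c, hc, h⟩
    rw [mainP_eq] at h; rwa [← h]
  · intro h
    exact ⟨_, h, rfl⟩

theorem mem_tok {v : List (Lt2 M)} {q : M.Q} : q ∈ v.filterMap (tokP M) ↔ ql M q ∈ v := by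
  rw [List.mem_filterMap]
  constructor
  · rintro ⟨c, hc, h⟩
    rw [tokP_eq] at h; rwa [← h]
  · intro h
    exact ⟨_, h, rfl⟩

theorem keep {a c : Lt2 M} {W : Set (List (Lt2 M))} {v v' : List (Lt2 M)}
    (H : Rew (upd a W) v v') (hc : c ∈ v) (hne : c ≠ a) : c ∈ v' := by
  refine H.mem_out hc ?_
  intro u hu
  rw [upd_ne _ hne] at hu
  have : u = [c] := hu
  rw [this]; simp

theorem dead_step {x : Ck M} {i j : Kd} {W : Set (List (Lt2 M))} (hij : j ≠ i)
    {v v' : List (Lt2 M)} (hv : Dead M v) (H : Rew (t2 M x i W j) v v') : Dead M v' := by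
  have hne : (some (x, j) : Lt2 M) ≠ some (x, i) := by
    intro h; exact hij (by simpa using h)
  rcases two_cases hne H with hf | ⟨_, _, rfl⟩ | ⟨hb, ha, H⟩
  · exact Or.inl hf
  · exact hv
  · rcases hv with hn | ⟨y, h1, h2, h3⟩
    · exact Or.inl (keep M H hn (by simp))
    · have hxy : y ≠ x := by
        rintro rfl
        rcases j with _ | _ | _
        · exact hb h1
        · exact hb h2
        · exact hb h3
      refine Or.inr ⟨y, keep M H h1 ?_, keep M H h2 ?_, keep M H h3 ?_⟩ <;>
      · intro h
        simp only [Option.some.injEq, Prod.mk.injEq] at h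
        exact hxy h.1

def Inv2 (v : List (Lt2 M)) : Prop :=
  Dead M v ∨ (∃ q, v.filterMap (tokP M) = [q] ∧ M.Reach q (v.filterMap (mainP M))) ∨
  (v.filterMap (tokP M) = [] ∧ M.Reach M.qf (v.filterMap (mainP M)))

theorem fm_self {D : Type} {R : D → Set (List D)} (f : Lt2 M → Option D) (c : Lt2 M)
    (h : ∀ d, f c = some d → [d] ∈ R d) : Rew R ([c].filterMap f) ([c].filterMap f) := by
  refine Rew.self ?_
  intro d hd
  simp only [List.mem_filterMap, List.mem_singleton, exists_eq_left] at hd
  exact h d hd

/-- a projection not affected by the change -/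
theorem proj_same {D : Type} {a : Lt2 M} {W : Set (List (Lt2 M))} {f : Lt2 M → Option D}
    {v v' : List (Lt2 M)} (H : Rew (upd a W) v v') (ha : f a = none)
    (hW : ∀ u ∈ W, u.filterMap f = []) : v'.filterMap f = v.filterMap f := by
  have h1 : Rew (fun d : D => ({[d]} : Set (List D))) (v.filterMap f) (v'.filterMap f) := by
    refine H.filterMap ?_
    intro c _ u hu
    by_cases hca : c = a
    · subst hca
      rw [upd_self] at hu
      rw [hW u hu]
      have : [c].filterMap f = [] := by simp [ha]
      rw [this]; exact Rew.nil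
    · rw [upd_ne _ hca] at hu
      have : u = [c] := hu
      subst this
      exact fm_self M f c (fun d _ => rfl)
  exact h1.eq_self (fun _ _ => rfl)

/-- a projection affected by the change -/
theorem proj_upd {D : Type} {a : Lt2 M} {W : Set (List (Lt2 M))} {f : Lt2 M → Option D} {d0 : D}
    {V : Set (List D)} {v v' : List (Lt2 M)} (H : Rew (upd a W) v v') (ha : f a = some d0)
    (hf : ∀ c, f c = some d0 → c = a)
    (hW : ∀ u ∈ W, u.filterMap f ∈ V) : Rew (upd d0 V) (v.filterMap f) (v'.filterMap f) := by
  refine H.filterMap ?_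
  intro c _ u hu
  by_cases hca : c = a
  · subst hca
    rw [upd_self] at hu
    have h1 : [c].filterMap f = [d0] := by simp [ha]
    rw [h1]
    have h2 : u.filterMap f ∈ upd d0 V d0 := by rw [upd_self]; exact hW u hu
    have := Rew.cons h2 (Rew.nil (h := upd d0 V))
    rwa [List.append_nil] at this
  · rw [upd_ne _ hca] at hu
    have : u = [c] := hu
    subst this
    refine fm_self M f c (fun d hd => ?_)
    have : d ≠ d0 := by rintro rfl; exact hca (hf c hd)
    rw [upd_ne _ this]; rfl

theorem plugs_tok (q : M.Q) : (plugs M q).filterMap (tokP M) = [] := by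
  unfold plugs
  induction others M q with
  | nil => rfl
  | cons x l ih => rw [List.flatMap_cons, List.filterMap_append, ih]; rfl

theorem plugs_main (q : M.Q) : (plugs M q).filterMap (mainP M) = [] := by
  unfold plugs
  induction others M q with
  | nil => rfl
  | cons x l ih => rw [List.flatMap_cons, List.filterMap_append, ih]; rfl

theorem map_tok (x : List M.L) : (x.map (ml M)).filterMap (tokP M) = [] := by
  induction x with
  | nil => rfl
  | cons a x ih => rw [List.map_cons, List.filterMap_cons]; simpa [tokP] using ih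

theorem map_main (x : List M.L) : (x.map (ml M)).filterMap (mainP M) = x := by
  induction x with
  | nil => rfl
  | cons a x ih => rw [List.map_cons, List.filterMap_cons]; simpa [mainP] using ih

theorem chk_tok (o : Option M.L) : (chk M o).filterMap (tokP M) = [] := by
  cases o <;> rfl

theorem chk_main (o : Option M.L) : (chk M o).filterMap (mainP M) = [] := by
  cases o <;> rfl

theorem mem_plugs {q x : M.Q} (h : x ≠ q) :
    gl M (Sum.inr x) ∈ plugs M q ∧ rl M (Sum.inr x) ∈ plugs M q := by
  unfold plugs
  constructor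
  · rw [List.mem_flatMap]; exact ⟨x, (mem_others M q x).2 h, by simp⟩
  · rw [List.mem_flatMap]; exact ⟨x, (mem_others M q x).2 h, by simp⟩

theorem Inv2.step (hin : M.Inert) {v v' : List (Lt2 M)} (hv : Inv2 M v)
    {h : Lt2 M → Set (List (Lt2 M))} (hh : h ∈ tabs2 M) (H : Rew h v v') : Inv2 M v' := by
  rcases hv with hd | hv
  · obtain ⟨x, i, W, j, rfl, hij, _, _⟩ := tabs2_shape M hh
    exact Or.inl (dead_step M hij hd H)
  rcases hh with (((⟨o, ho, rfl⟩ | ⟨m, hm, rfl⟩) | ⟨x, rfl⟩) | ⟨x, rfl⟩) | rfl
  · rcases two_cases (by simp) H with hf | ⟨_, _, rfl⟩ | ⟨_, ha, H⟩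
    · exact Or.inl (Or.inl hf)
    · exact Or.inr hv
    rcases hv with ⟨q, ht, hr⟩ | ⟨ht, hr⟩
    · have htok : v'.filterMap (tokP M) = v.filterMap (tokP M) := by
        refine proj_same M H rfl ?_
        rintro u ⟨x, _, rfl⟩
        rw [List.filterMap_append, map_tok, plugs_tok]; rfl
      have hmain : Rew (upd o.2.1 o.2.2) (v.filterMap (mainP M)) (v'.filterMap (mainP M)) := by
        refine proj_upd M H rfl (fun c hc => (mainP_eq M).1 hc) ?_
        rintro u ⟨x, hx, rfl⟩
        rw [List.filterMap_append, map_main, plugs_main, List.append_nil]; exact hx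
      by_cases hq : q = o.1
      · subst hq
        exact Or.inr (Or.inl ⟨_, htok.trans ht, Ctl.Reach.op hr ho hmain⟩)
      · left; right
        refine ⟨Sum.inr q, ?_, ?_, ?_⟩
        · refine keep M H ((mem_tok M).1 ?_) (by simp)
          rw [ht]; simp
        · refine H.mem_out ha ?_
          rw [upd_self]
          rintro u ⟨x, _, rfl⟩
          exact List.mem_append_right _ (mem_plugs M hq).1
        · refine H.mem_out ha ?_
          rw [upd_self]
          rintro u ⟨x, _, rfl⟩
          exact List.mem_append_right _ (mem_plugs M hq).2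
    · exact absurd rfl (hin _ hr _ ((mem_main M).2 ha) o ho)
  · rcases two_cases (by simp) H with hf | ⟨_, _, rfl⟩ | ⟨_, ha, H⟩
    · exact Or.inl (Or.inl hf)
    · exact Or.inr hv
    rcases hv with ⟨q, ht, hr⟩ | ⟨ht, hr⟩
    · have hq : m.1 = q := by
        have := (mem_tok M).2 ha
        rw [ht] at this; simpa using this
      have hmain : v'.filterMap (mainP M) = v.filterMap (mainP M) := by
        refine proj_same M H rfl ?_
        intro u hu
        have : u = ql M m.2.1 :: chk M m.2.2 := hu
        rw [this, List.filterMap_cons, chk_main]; rfl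
      have htok : Rew (upd m.1 {[m.2.1]}) (v.filterMap (tokP M)) (v'.filterMap (tokP M)) := by
        refine proj_upd M H rfl (fun c hc => (tokP_eq M).1 hc) ?_
        intro u hu
        have : u = ql M m.2.1 :: chk M m.2.2 := hu
        rw [this, List.filterMap_cons, chk_tok]; rfl
      have htok' : v'.filterMap (tokP M) = [m.2.1] := by
        rw [ht, ← hq] at htok
        generalize v'.filterMap (tokP M) = z at htok
        cases htok with
        | cons hu hr =>
          rw [upd_self] at hu
          rw [hr.nil_left, List.append_nil]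
          exact hu
      by_cases hc : ∀ a ∈ m.2.2, a ∉ v.filterMap (mainP M)
      · right; left
        refine ⟨m.2.1, htok', ?_⟩
        rw [hmain]
        refine Ctl.Reach.mv (q := m.1) (o := m.2.2) (by rw [hq]; exact hr) hm hc
      · push Not at hc
        obtain ⟨a, ham, hav⟩ := hc
        have ham' : m.2.2 = some a := ham
        left; right
        refine ⟨Sum.inl a, ?_, ?_, ?_⟩
        · exact keep M H ((mem_main M).1 hav) (by simp)
        · refine H.mem_out ha ?_
          rw [upd_self]
          intro u hu
          have : u = ql M m.2.1 :: chk M m.2.2 := hu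
          rw [this, ham']; simp [chk]
        · refine H.mem_out ha ?_
          rw [upd_self]
          intro u hu
          have : u = ql M m.2.1 :: chk M m.2.2 := hu
          rw [this, ham']; simp [chk]
    · have := (mem_tok M).2 ha
      rw [ht] at this; simp at this
  · rcases two_cases (by simp) H with hf | ⟨_, _, rfl⟩ | ⟨_, ha, H⟩
    · exact Or.inl (Or.inl hf)
    · exact Or.inr hv
    have h1 : v'.filterMap (tokP M) = v.filterMap (tokP M) := by
      refine proj_same M H ?_ ?_
      · rcases x with x | x <;> rfl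
      · intro u hu
        have : u = [] := hu
        rw [this]; rfl
    have h2 : v'.filterMap (mainP M) = v.filterMap (mainP M) := by
      refine proj_same M H ?_ ?_
      · rcases x with x | x <;> rfl
      · intro u hu
        have : u = [] := hu
        rw [this]; rfl
    right
    rw [h1, h2]; exact hv
  · rcases two_cases (by simp) H with hf | ⟨_, _, rfl⟩ | ⟨_, ha, H⟩
    · exact Or.inl (Or.inl hf)
    · exact Or.inr hv
    have h1 : v'.filterMap (tokP M) = v.filterMap (tokP M) := by
      refine proj_same M H ?_ ?_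
      · rcases x with x | x <;> rfl
      · intro u hu
        have : u = [] := hu
        rw [this]; rfl
    have h2 : v'.filterMap (mainP M) = v.filterMap (mainP M) := by
      refine proj_same M H ?_ ?_
      · rcases x with x | x <;> rfl
      · intro u hu
        have : u = [] := hu
        rw [this]; rfl
    right
    rw [h1, h2]; exact hv
  · rcases two_cases (by simp) H with hf | ⟨_, _, rfl⟩ | ⟨_, ha, H⟩
    · exact Or.inl (Or.inl hf)
    · exact Or.inr hv
    rcases hv with ⟨q, ht, hr⟩ | ⟨ht, hr⟩
    · have hq : M.qf = q := by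
        have := (mem_tok M).2 ha
        rw [ht] at this; simpa using this
      have hmain : v'.filterMap (mainP M) = v.filterMap (mainP M) := by
        refine proj_same M H rfl ?_
        intro u hu
        have : u = [] := hu
        rw [this]; rfl
      have htok : Rew (upd M.qf {[]}) (v.filterMap (tokP M)) (v'.filterMap (tokP M)) := by
        refine proj_upd M H rfl (fun c hc => (tokP_eq M).1 hc) ?_
        intro u hu
        have : u = [] := hu
        rw [this]; rfl
      have htok' : v'.filterMap (tokP M) = [] := by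
        rw [ht, ← hq] at htok
        generalize v'.filterMap (tokP M) = z at htok
        cases htok with
        | cons hu hr =>
          rw [upd_self] at hu
          rw [hr.nil_left, List.append_nil]
          exact hu
      right; right
      refine ⟨htok', ?_⟩
      rw [hmain, hq]; exact hr
    · have := (mem_tok M).2 ha
      rw [ht] at this; simp at this

theorem Inv2.der (hin : M.Inert) {v : List (Lt2 M)} (H : (sim2 M).Der (sim2 M).axm v) :
    Inv2 M v := by
  induction H with
  | refl =>
    right; left
    refine ⟨M.q0, ?_, ?_⟩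
    · show (ql M M.q0 :: M.ax.map (ml M)).filterMap (tokP M) = [M.q0]
      rw [List.filterMap_cons, map_tok]; rfl
    · have : (ql M M.q0 :: M.ax.map (ml M)).filterMap (mainP M) = M.ax := by
        rw [List.filterMap_cons, map_main]; rfl
      show M.Reach M.q0 ((ql M M.q0 :: M.ax.map (ml M)).filterMap (mainP M))
      rw [this]; exact Ctl.Reach.start
  | tail _ h ih =>
    obtain ⟨t, ht, hr⟩ := h
    exact Inv2.step M hin ih ht hr

theorem sound2 (hin : M.Inert) {z : List T} (hz : z ∈ (sim2 M).lang) : z ∈ M.lang := by
  have H : Inv2 M (z.map fun t => ml M (M.ι t)) := Inv2.der M hin hz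
  have e : (z.map fun t => ml M (M.ι t)) = (z.map M.ι).map (ml M) := by
    rw [List.map_map]; rfl
  rw [e] at H
  rcases H with (hn | ⟨x, _, h2, _⟩) | ⟨q, ht, _⟩ | ⟨_, hr⟩
  · obtain ⟨t, _, ht⟩ := List.mem_map.1 hn
    simp at ht
  · obtain ⟨t, _, ht⟩ := List.mem_map.1 h2
    simp at ht
  · rw [map_tok] at ht
    simp at ht
  · rw [map_main] at hr
    exact hr

/-! ### completeness -/

/-- derivations, as a relation on `List (Lt2 M)` -/
def D2 : List (Lt2 M) → List (Lt2 M) → Prop :=
  Relation.ReflTransGen fun x y => ∃ h ∈ tabs2 M, Rew h x y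

open Classical in
/-- keep the letters which are not guards of `xs` -/
noncomputable def cl (xs : List (Ck M)) (c : Lt2 M) : Bool :=
  decide (∀ x ∈ xs, c ≠ gl M x ∧ c ≠ rl M x)

noncomputable def ne' (a c : Lt2 M) : Bool := @decide (c ≠ a) (Classical.propDecidable _)

theorem ne'_iff (a c : Lt2 M) : ne' M a c = true ↔ c ≠ a :=
  @decide_eq_true_iff _ (Classical.propDecidable _)

theorem clean_one (x : Ck M) {v : List (Lt2 M)} (hx : wl M x ∉ v) :
    D2 M v (v.filter (cl M [x])) := by
  classical
  have h1 : Rew (cg2 M x) v (v.filter (ne' M (gl M x))) := two_erase _ _ (ne'_iff M _) hx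
  have h2 : gl M x ∉ v.filter (ne' M (gl M x)) := by
    intro h
    have := (List.mem_filter.1 h).2
    rw [ne'_iff] at this
    exact this rfl
  have h3 : Rew (cr2 M x) (v.filter (ne' M (gl M x)))
    ((v.filter (ne' M (gl M x))).filter (ne' M (rl M x))) := two_erase _ _ (ne'_iff M _) h2
  have h4 : (v.filter (ne' M (gl M x))).filter (ne' M (rl M x)) = v.filter (cl M [x]) := by
    rw [List.filter_filter]
    congr 1
    funext c
    rw [Bool.eq_iff_iff, Bool.and_eq_true, ne'_iff, ne'_iff]
    unfold cl
    rw [decide_eq_true_iff]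
    simp only [List.mem_singleton, forall_eq]
    exact and_comm
  rw [← h4]
  exact (Relation.ReflTransGen.single ⟨_, Or.inl (Or.inl (Or.inr ⟨x, rfl⟩)), h1⟩).tail
    ⟨_, Or.inl (Or.inr ⟨x, rfl⟩), h3⟩

theorem cl_iff (xs : List (Ck M)) (c : Lt2 M) :
    cl M xs c = true ↔ ∀ x ∈ xs, c ≠ gl M x ∧ c ≠ rl M x := by
  classical
  unfold cl; rw [decide_eq_true_iff]

theorem clean_list (xs : List (Ck M)) : ∀ {v : List (Lt2 M)}, (∀ x ∈ xs, wl M x ∉ v) →
    D2 M v (v.filter (cl M xs)) := by
  classical
  induction xs with
  | nil =>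
    intro v _
    have : v.filter (cl M []) = v := by
      rw [List.filter_eq_self]
      intro c _
      simp [cl]
    rw [this]
    exact Relation.ReflTransGen.refl
  | cons x xs ih =>
    intro v hv
    have h1 := clean_one M x (hv x (by simp))
    have h2 := ih (v := v.filter (cl M [x])) (fun y hy hm =>
      hv y (by simp [hy]) (List.mem_filter.1 hm).1)
    have h3 : (v.filter (cl M [x])).filter (cl M xs) = v.filter (cl M (x :: xs)) := by
      rw [List.filter_filter]
      congr 1
      funext c
      rw [Bool.eq_iff_iff, Bool.and_eq_true, cl_iff, cl_iff, cl_iff]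
      constructor
      · rintro ⟨h4, h5⟩ y hy
        rcases List.mem_cons.1 hy with rfl | hy
        · first | exact h5 _ (by simp) | exact h4 _ (by simp)
        · first | exact h4 y hy | exact h5 y hy
      · intro h4
        refine ⟨fun y hy => h4 y ?_, fun y hy => h4 y ?_⟩
        · simp_all
        · simp_all
    rw [← h3]
    exact Relation.ReflTransGen.trans h1 h2

theorem cl_w (xs : List (Ck M)) (x : Ck M) : cl M xs (wl M x) = true := by
  rw [cl_iff]
  intro y _
  exact ⟨by simp, by simp⟩

theorem filter_map_cl (xs : List (Ck M)) (w : List M.L) :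
    (w.map (ml M)).filter (cl M xs) = w.map (ml M) := by
  rw [List.filter_eq_self]
  intro c hc
  obtain ⟨a, _, rfl⟩ := List.mem_map.1 hc
  exact cl_w M xs _

theorem filter_plugs (q : M.Q) : (plugs M q).filter (cl M ((others M q).map Sum.inr)) = [] := by
  rw [List.filter_eq_nil_iff]
  intro c hc
  unfold plugs at hc
  rw [List.mem_flatMap] at hc
  obtain ⟨x, hx, hc⟩ := hc
  intro h
  rw [cl_iff] at h
  obtain ⟨h1, h2⟩ := h (Sum.inr x) (List.mem_map_of_mem hx)
  simp only [List.mem_cons, List.not_mem_nil, or_false] at hc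
  rcases hc with rfl | rfl
  · exact h1 rfl
  · exact h2 rfl

theorem plugs_notw {q : M.Q} {x : Ck M} : wl M x ∉ plugs M q := by
  unfold plugs
  rw [List.mem_flatMap]
  rintro ⟨y, _, hc⟩
  simp at hc

theorem op_exists (o : M.Q × M.L × Set (List M.L)) {w w' : List M.L}
    (H : Rew (upd o.2.1 o.2.2) w w') :
    ∃ v, Rew (op2 M o) (w.map (ml M)) v ∧ (∀ q, ql M q ∉ v) ∧
      v.filter (cl M ((others M o.1).map Sum.inr)) = w'.map (ml M) := by
  classical
  induction H with
  | nil => exact ⟨[], Rew.nil, by simp, rfl⟩
  | @cons c u x y hu _ ih =>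
    obtain ⟨v, h1, h2, h3⟩ := ih
    by_cases hc : c = o.2.1
    · subst hc
      rw [upd_self] at hu
      refine ⟨(u.map (ml M) ++ plugs M o.1) ++ v, ?_, ?_, ?_⟩
      · refine Rew.cons ?_ h1
        show _ ∈ two _ _ _ _ _
        rw [two_a]
        exact ⟨u, hu, rfl⟩
      · intro q hq
        rw [List.mem_append, List.mem_append] at hq
        rcases hq with (hq | hq) | hq
        · obtain ⟨a, _, ha⟩ := List.mem_map.1 hq
          simp at ha
        · exact plugs_notw M hq
        · exact h2 q hq
      · rw [List.filter_append, List.filter_append, filter_map_cl, filter_plugs, h3,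
          List.append_nil, List.map_append]
    · rw [upd_ne _ hc] at hu
      have : u = [c] := hu
      subst this
      refine ⟨ml M c :: v, ?_, ?_, ?_⟩
      · have h4 : [ml M c] ∈ op2 M o (ml M c) := by
          show _ ∈ two _ _ _ _ _
          rw [two_ne _ _ (by simpa using hc) (by simp)]
          rfl
        exact Rew.cons h4 h1
      · intro q hq
        rw [List.mem_cons] at hq
        rcases hq with hq | hq
        · simp at hq
        · exact h2 q hq
      · rw [List.filter_cons_of_pos (cl_w M _ _), h3]; rfl

theorem of_reach2 {q : M.Q} {w : List M.L} (hr : M.Reach q w) :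
    D2 M (ql M M.q0 :: M.ax.map (ml M)) (ql M q :: w.map (ml M)) := by
  classical
  induction hr with
  | start => exact Relation.ReflTransGen.refl
  | @op q w w' a W _ ho h ih =>
    obtain ⟨v, h1, h2, h3⟩ := op_exists M (q, a, W) h
    have h4 : [ql M q] ∈ op2 M (q, a, W) (ql M q) := by
      show _ ∈ two _ _ _ _ _
      rw [two_ne _ _ (by simp) (by simp)]
      rfl
    have h5 : Rew (op2 M (q, a, W)) (ql M q :: w.map (ml M)) (ql M q :: v) := Rew.cons h4 h1
    have h6 := ih.tail ⟨_, Or.inl (Or.inl (Or.inl (Or.inl ⟨_, ho, rfl⟩))), h5⟩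
    have h7 := clean_list M ((others M q).map Sum.inr) (v := ql M q :: v) (by
      intro x hx
      obtain ⟨y, hy, rfl⟩ := List.mem_map.1 hx
      rw [List.mem_cons]
      rintro (h8 | h8)
      · have : y = q := by simpa using h8
        exact (mem_others M q y).1 hy this
      · exact h2 y h8)
    rw [List.filter_cons_of_pos (cl_w M _ _), h3] at h7
    exact Relation.ReflTransGen.trans h6 h7
  | @mv q q' w o _ hm h ih =>
    have h4 : (ql M q' :: chk M o) ∈ mv2 M (q, q', o) (ql M q) := by
      show _ ∈ two _ _ _ _ _
      rw [two_a]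
      rfl
    have h5 : Rew (mv2 M (q, q', o)) (w.map (ml M)) (w.map (ml M)) := by
      refine Rew.self ?_
      intro c hc
      obtain ⟨a, _, rfl⟩ := List.mem_map.1 hc
      show _ ∈ two _ _ _ _ _
      rw [two_ne _ _ (by simp) (by simp)]
      rfl
    have h6 := ih.tail ⟨_, Or.inl (Or.inl (Or.inl (Or.inr ⟨_, hm, rfl⟩))), Rew.cons h4 h5⟩
    rcases o with _ | a
    · exact h6
    · have ha : a ∉ w := h a rfl
      have h7 := clean_list M [Sum.inl a]
        (v := (ql M q' :: chk M (some a)) ++ w.map (ml M)) (by
          intro x hx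
          rw [List.mem_singleton] at hx
          subst hx
          rw [List.mem_append]
          rintro (h8 | h8)
          · simp [chk] at h8
          · obtain ⟨b, hb, hb'⟩ := List.mem_map.1 h8
            have : b = a := by simpa using hb'
            exact ha (this ▸ hb))
      have h8 : ((ql M q' :: chk M (some a)) ++ w.map (ml M)).filter (cl M [Sum.inl a]) =
          ql M q' :: w.map (ml M) := by
        rw [List.filter_append, filter_map_cl, List.filter_cons_of_pos (cl_w M _ _)]
        simp [chk, cl]
      rw [h8] at h7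
      exact Relation.ReflTransGen.trans h6 h7

theorem complete2 {z : List T} (hz : z ∈ M.lang) : z ∈ (sim2 M).lang := by
  classical
  have h1 := of_reach2 M hz
  have h2 : Rew (fin2 M) (ql M M.qf :: (z.map M.ι).map (ml M)) ((z.map M.ι).map (ml M)) := by
    have h3 : ([] : List (Lt2 M)) ∈ fin2 M (ql M M.qf) := by
      show _ ∈ two _ _ _ _ _
      rw [two_a]
      rfl
    have h5 : Rew (fin2 M) ((z.map M.ι).map (ml M)) ((z.map M.ι).map (ml M)) := by
      refine Rew.self ?_
      intro c hc
      obtain ⟨a, _, rfl⟩ := List.mem_map.1 hc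
      show _ ∈ two _ _ _ _ _
      rw [two_ne _ _ (by simp) (by simp)]
      rfl
    have := Rew.cons h3 h5
    simpa using this
  have h4 := h1.tail ⟨_, Or.inr rfl, h2⟩
  have e : (z.map M.ι).map (ml M) = z.map (sim2 M).ι := by rw [List.map_map]; rfl
  show (sim2 M).Der (sim2 M).axm (z.map (sim2 M).ι)
  exact e ▸ h4

theorem sim2_lang (hin : M.Inert) : (sim2 M).lang = M.lang :=
  Set.Subset.antisymm (fun _ h => sound2 M hin h) (fun _ h => complete2 M h)

end sim2

/-- every ET0L language is generated by a `2`-restricted system -/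
theorem exists_two {T : Type} (S : Sys T) : ∃ S' : Sys T, S'.Restricted 2 ∧ S'.lang = S.lang :=
  ⟨sim2 (ctl S), sim2_restricted (ctl S), (sim2_lang (ctl S) (ctl_inert S)).trans (ctl_lang S)⟩

end Pool.Agent.H882R2.ET0L
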