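import Pool.Agent.H882R2.Area

/-! No isometric immersion of the torus with the scaled metric. -/

set_option autoImplicit false

open scoped RealInnerProductSpace Topology ContDiff ENNReal
open MeasureTheory Metric Set

namespace H882R2

open H575Germ (E2 pd)

theorem integral_pos_cos : ∫ v in (0 : ℝ)..(2 * Real.pi), max (Real.cos v) 0 = 2 := by
  have hpi := Real.pi_pos
  have hc : Continuous fun v : ℝ => max (Real.cos v) 0 := by fun_prop
  have hi : ∀ a b : ℝ, IntervalIntegrable (fun v : ℝ => max (Real.cos v) 0) volume a b :=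
    fun a b => hc.intervalIntegrable a b
  rw [← intervalIntegral.integral_add_adjacent_intervals (hi 0 (Real.pi / 2))
    (hi (Real.pi / 2) (2 * Real.pi)),
    ← intervalIntegral.integral_add_adjacent_intervals (hi (Real.pi / 2) (Real.pi + Real.pi / 2))
    (hi (Real.pi + Real.pi / 2) (2 * Real.pi))]
  have h1 : ∫ v in (0 : ℝ)..(Real.pi / 2), max (Real.cos v) 0 = 1 := by
    rw [intervalIntegral.integral_congr (g := fun v => Real.cos v)]
    · rw [integral_cos]; simp
    · intro v hv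
      rw [uIcc_of_le (by positivity)] at hv
      exact max_eq_left (Real.cos_nonneg_of_mem_Icc ⟨by linarith [hv.1], hv.2⟩)
  have h2 : ∫ v in (Real.pi / 2)..(Real.pi + Real.pi / 2), max (Real.cos v) 0 = 0 := by
    rw [intervalIntegral.integral_congr (g := fun v => 0)]
    · simp
    · intro v hv
      rw [uIcc_of_le (by linarith)] at hv
      exact max_eq_right (Real.cos_nonpos_of_pi_div_two_le_of_le hv.1 (by linarith [hv.2]))
  have h3 : ∫ v in (Real.pi + Real.pi / 2)..(2 * Real.pi), max (Real.cos v) 0 = 1 := by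
    rw [intervalIntegral.integral_congr (g := fun v => Real.cos v)]
    · rw [integral_cos, Real.sin_two_pi, Real.sin_add, Real.sin_pi, Real.cos_pi,
        Real.sin_pi_div_two, Real.cos_pi_div_two]
      norm_num
    · intro v hv
      rw [uIcc_of_le (by linarith)] at hv
      have h4 : 0 ≤ Real.cos (v - 2 * Real.pi) :=
        Real.cos_nonneg_of_mem_Icc ⟨by linarith [hv.1], by linarith [hv.2]⟩
      rw [Real.cos_sub_two_pi] at h4
      exact max_eq_left h4
  rw [h1, h2, h3]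
  norm_num

/-- the factors of the integrand -/
noncomputable def FF (s : ℝ) : Fin 3 → ℝ → ℝ :=
  ![(Ico 0 (2 * Real.pi)).indicator fun _ => 1,
    (Ico 0 (2 * Real.pi)).indicator fun v => s * max (Real.cos v) 0,
    (Ioo 0 1).indicator fun t => t ^ 2]

theorem FF_nonneg {s : ℝ} (hs : 0 < s) (i : Fin 3) (t : ℝ) : 0 ≤ FF s i t := by
  fin_cases i
  · exact indicator_nonneg (fun _ _ => zero_le_one) t
  · exact indicator_nonneg (fun v _ => mul_nonneg hs.le (le_max_right _ _)) t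
  · exact indicator_nonneg (fun v _ => sq_nonneg v) t

theorem FF_integrable {s : ℝ} (i : Fin 3) : Integrable (FF s i) := by
  fin_cases i
  · show Integrable ((Ico 0 (2 * Real.pi)).indicator fun _ => (1 : ℝ))
    rw [integrable_indicator_iff measurableSet_Ico]
    exact (continuous_const.continuousOn.integrableOn_Icc).mono_set Ico_subset_Icc_self
  · show Integrable ((Ico 0 (2 * Real.pi)).indicator fun v => s * max (Real.cos v) 0)
    rw [integrable_indicator_iff measurableSet_Ico]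
    refine (Continuous.continuousOn ?_).integrableOn_Icc.mono_set Ico_subset_Icc_self
    fun_prop
  · show Integrable ((Ioo 0 1).indicator fun t : ℝ => t ^ 2)
    rw [integrable_indicator_iff measurableSet_Ioo]
    refine (Continuous.continuousOn ?_).integrableOn_Icc.mono_set Ioo_subset_Icc_self
    fun_prop

theorem FF_integral (s : ℝ) : ∏ i, ∫ t, FF s i t = s * (Real.pi * 4 / 3) := by
  rw [Fin.prod_univ_three]
  have hpi := Real.pi_pos
  have h0 : ∫ t, FF s 0 t = 2 * Real.pi := by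
    show ∫ t, (Ico 0 (2 * Real.pi)).indicator (fun _ => (1 : ℝ)) t = _
    rw [integral_indicator measurableSet_Ico, integral_Ico_eq_integral_Ioc,
      ← intervalIntegral.integral_of_le (by positivity)]
    simp
  have h1 : ∫ t, FF s 1 t = s * 2 := by
    show ∫ t, (Ico 0 (2 * Real.pi)).indicator (fun v => s * max (Real.cos v) 0) t = _
    rw [integral_indicator measurableSet_Ico, integral_Ico_eq_integral_Ioc,
      ← intervalIntegral.integral_of_le (by positivity), intervalIntegral.integral_const_mul,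
      integral_pos_cos]
  have h2 : ∫ t, FF s 2 t = 1 / 3 := by
    show ∫ t, (Ioo 0 1).indicator (fun t : ℝ => t ^ 2) t = _
    rw [integral_indicator measurableSet_Ioo, ← integral_Ioc_eq_integral_Ioo,
      ← intervalIntegral.integral_of_le zero_le_one, integral_pow]
    norm_num
  rw [h0, h1, h2]
  ring

theorem lint (s : ℝ) (hs : 0 < s) :
    ∫⁻ y : E3, ENNReal.ofReal (∏ i, FF s i (y i)) = ENNReal.ofReal (s * (Real.pi * 4 / 3)) := by
  have hI : Integrable (fun z : Fin 3 → ℝ => ∏ i, FF s i (z i)) :=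
    Integrable.fintype_prod fun i => FF_integrable i
  rw [← FF_integral, ← integral_fintype_prod_volume_eq_prod,
    ofReal_integral_eq_lintegral_ofReal hI
      (Filter.Eventually.of_forall fun y => Finset.prod_nonneg fun i _ => FF_nonneg hs i _)]
  exact (PiLp.volume_preserving_ofLp (Fin 3)).lintegral_comp_emb
    (MeasurableEquiv.toLp 2 (Fin 3 → ℝ)).symm.measurableEmbedding
    (fun z : Fin 3 → ℝ => ENNReal.ofReal (∏ i, FF s i (z i)))

section
variable {R s r : ℝ} {f : E2 → E3}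

theorem per_int (hf : Imm R s r f) (i : Fin 2) (n : ℤ) (x : E2) :
    f (x + ((n : ℝ) * (2 * Real.pi)) • EuclideanSpace.single i 1) = f x := by
  induction n using Int.induction_on with
  | zero => simp
  | succ n ih =>
    rw [← ih]
    have := hf.per (x + ((n : ℝ) * (2 * Real.pi)) • EuclideanSpace.single i 1) i
    rw [add_assoc, ← add_smul] at this
    rw [show (((n : ℤ) + 1 : ℤ) : ℝ) * (2 * Real.pi) = (n : ℝ) * (2 * Real.pi) + 2 * Real.pi by
      push_cast; ring, this]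
    norm_cast
  | pred n ih =>
    rw [← ih]
    have := hf.per (x + (((-(n : ℤ) - 1 : ℤ) : ℝ) * (2 * Real.pi)) • EuclideanSpace.single i 1) i
    rw [add_assoc, ← add_smul] at this
    rw [← this]
    congr 3
    push_cast
    ring

theorem reduce (hf : Imm R s r f) (q : E2) : ∃ q' : E2, f q' = f q ∧
    (0 ≤ q' 0 ∧ q' 0 < 2 * Real.pi) ∧ (0 ≤ q' 1 ∧ q' 1 < 2 * Real.pi) := by
  have hp : (0 : ℝ) < 2 * Real.pi := by positivity
  refine ⟨(q + (((-toIcoDiv hp 0 (q 0) : ℤ) : ℝ) * (2 * Real.pi)) • EuclideanSpace.single 0 1) +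
    (((-toIcoDiv hp 0 (q 1) : ℤ) : ℝ) * (2 * Real.pi)) • EuclideanSpace.single 1 1, ?_, ?_, ?_⟩
  · rw [per_int hf, per_int hf]
  · have h := sub_toIcoDiv_zsmul_mem_Ico hp 0 (q 0)
    rw [zero_add, zsmul_eq_mul] at h
    simp
    constructor
    · linarith [h.1]
    · linarith [h.2]
  · have h := sub_toIcoDiv_zsmul_mem_Ico hp 0 (q 1)
    rw [zero_add, zsmul_eq_mul] at h
    simp
    constructor
    · linarith [h.1]
    · linarith [h.2]

theorem exists_max (hf : Imm R s r f) (ν : E3) : ∃ x : E2,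
    (∀ q, ⟪f q, ν⟫ ≤ ⟪f x, ν⟫) ∧
    (0 ≤ x 0 ∧ x 0 < 2 * Real.pi) ∧ (0 ≤ x 1 ∧ x 1 < 2 * Real.pi) := by
  have hpi := Real.pi_pos
  obtain ⟨x0, -, hx0⟩ := (isCompact_closedBall (0 : E2) (4 * Real.pi)).exists_isMaxOn
    ⟨0, mem_closedBall_self (by positivity)⟩
    ((hf.cd.continuous.inner continuous_const).continuousOn (f := fun q => ⟪f q, ν⟫))
  obtain ⟨x, hx, hb⟩ := reduce hf x0
  refine ⟨x, fun q => ?_, hb⟩
  obtain ⟨q', hq', h0, h1⟩ := reduce hf q
  rw [← hq', hx]
  refine hx0 ?_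
  rw [mem_closedBall_zero_iff, EuclideanSpace.norm_eq, Fin.sum_univ_two]
  apply Real.sqrt_le_iff.2
  refine ⟨by positivity, ?_⟩
  simp only [Real.norm_eq_abs, sq_abs]
  nlinarith [h0.1, h0.2, h1.1, h1.2]

/-- points where `σ` times the normal is an outer support normal -/
def SS (R s r : ℝ) (f : E2 → E3) (σ : ℝ) : Set E2 :=
  {x | ∀ q, ⟪f q, σ • nn R s r f x⟫ ≤ ⟪f x, σ • nn R s r f x⟫}

theorem SS_closed (hr : 0 < r) (hR : r < R) (hs0 : 0 < s) (hs1 : s < 1) (hf : Imm R s r f)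
    (σ : ℝ) : IsClosed (SS R s r f σ) := by
  have hn := (nn_cd hr hR hs0 hs1 hf).continuous
  have hc := hf.cd.continuous
  rw [SS, Set.ofPred_forall]
  refine isClosed_iInter fun q => isClosed_le ?_ ?_
  · exact continuous_const.inner (hn.const_smul σ)
  · exact hc.inner (hn.const_smul σ)

theorem SS_disj (hr : 0 < r) (hR : r < R) (hs0 : 0 < s) (hs1 : s < 1) (hf : Imm R s r f)
    (x : E2) (h1 : x ∈ SS R s r f 1) (h2 : x ∈ SS R s r f (-1)) : False := by
  set N := nn R s r f x with hN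
  have hconst : ∀ q, ⟪f q, N⟫ = ⟪f x, N⟫ := by
    intro q
    have a1 := h1 q
    have a2 := h2 q
    simp only [one_smul, neg_smul, inner_neg_right] at a1 a2
    linarith
  have hmax : ∀ q q', ⟪f q', N⟫ ≤ ⟪f q, N⟫ := fun q q' => by rw [hconst q, hconst q']
  have hort : ∀ q, ⟪pd 0 f q, N⟫ = 0 ∧ ⟪pd 1 f q, N⟫ = 0 := fun q =>
    ⟨(height hf.cd N q (hmax q)).1, (height hf.cd N q (hmax q)).2.1⟩
  obtain ⟨q, hq, -⟩ := exists_max hf (pd 0 f x)
  obtain ⟨k0, k1, -⟩ := height hf.cd _ q hq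
  have hNN : ⟪N, N⟫ = 1 := nn_sq hr hR hs0 hs1 hf x
  have e1 := det_mul_det (pd 0 f q) (pd 0 f x) N (pd 1 f q) (pd 0 f x) N
  have e2 := det_mul_det (pd 0 f q) (pd 0 f x) N (pd 0 f q) (pd 0 f x) N
  have e3 := det_mul_det (pd 1 f q) (pd 0 f x) N (pd 1 f q) (pd 0 f x) N
  rw [hf.m01, k0, (hort q).1] at e1
  rw [hf.m00, hf.m00, k0, (hort q).1, (hort x).1, hNN] at e2
  rw [hf.m11, hf.m00, k1, (hort q).2, (hort x).1, hNN] at e3
  have ha := aa_pos hr hR hs0 hs1 (x 1)
  have hb := aa_pos hr hR hs0 hs1 (q 1)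
  have e2' : 0 < ⟪cr (pd 0 f q) (pd 0 f x), N⟫ * ⟪cr (pd 0 f q) (pd 0 f x), N⟫ := by
    rw [e2]
    have : 0 < aa R s r (q 1) ^ 2 * aa R s r (x 1) ^ 2 := by positivity
    linarith
  have e3' : 0 < ⟪cr (pd 1 f q) (pd 0 f x), N⟫ * ⟪cr (pd 1 f q) (pd 0 f x), N⟫ := by
    rw [e3]
    have : 0 < r ^ 2 * aa R s r (x 1) ^ 2 := by positivity
    linarith
  have e1' : ⟪cr (pd 0 f q) (pd 0 f x), N⟫ * ⟪cr (pd 1 f q) (pd 0 f x), N⟫ = 0 := by
    rw [e1]; ring
  rcases mul_eq_zero.1 e1' with h | h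
  · rw [h] at e2'; simp at e2'
  · rw [h] at e3'; simp at e3'

theorem SS_cos (hr : 0 < r) (hR : r < R) (hs0 : 0 < s) (hs1 : s < 1) (hf : Imm R s r f)
    (σ : ℝ) (hσ : σ ^ 2 = 1) (x : E2) (h : x ∈ SS R s r f σ) : 0 ≤ Real.cos (x 1) := by
  obtain ⟨k0, k1, k2⟩ := height hf.cd _ x h
  have hn : ‖σ • nn R s r f x‖ = 1 := by
    rw [norm_smul, nn_norm hr hR hs0 hs1 hf, mul_one, Real.norm_eq_abs]
    rw [← sq_abs] at hσ
    nlinarith [abs_nonneg σ]
  have hg := gauss hr hR hs0 hs1 hf x (σ • nn R s r f x) hn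
    (by rw [real_inner_comm]; exact k0) (by rw [real_inner_comm]; exact k1)
  rw [hg] at k2
  have ha := aa_pos hr hR hs0 hs1 (x 1)
  by_contra hc
  push Not at hc
  have : aa R s r (x 1) * (s * r * Real.cos (x 1)) < 0 :=
    mul_neg_of_pos_of_neg ha (mul_neg_of_pos_of_neg (by positivity) hc)
  linarith

/-- the domain of the cone map -/
def DD (R s r : ℝ) (f : E2 → E3) (σ : ℝ) : Set E3 :=
  {y | prL y ∈ SS R s r f σ ∧ (0 ≤ y 0 ∧ y 0 < 2 * Real.pi) ∧ (0 ≤ y 1 ∧ y 1 < 2 * Real.pi) ∧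
    (0 < y 2 ∧ y 2 < 1)}

theorem DD_meas (hr : 0 < r) (hR : r < R) (hs0 : 0 < s) (hs1 : s < 1) (hf : Imm R s r f)
    (σ : ℝ) : MeasurableSet (DD R s r f σ) := by
  have h : ∀ i : Fin 3, Measurable fun y : E3 => y i := fun i => by fun_prop
  refine MeasurableSet.inter ?_ (MeasurableSet.inter ?_ (MeasurableSet.inter ?_ ?_))
  · exact (SS_closed hr hR hs0 hs1 hf σ).measurableSet.preimage prL.continuous.measurable
  · exact (measurableSet_le measurable_const (h 0)).inter (measurableSet_lt (h 0) measurable_const)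
  · exact (measurableSet_le measurable_const (h 1)).inter (measurableSet_lt (h 1) measurable_const)
  · exact (measurableSet_lt measurable_const (h 2)).inter (measurableSet_lt (h 2) measurable_const)

theorem cover (hr : 0 < r) (hR : r < R) (hs0 : 0 < s) (hs1 : s < 1) (hf : Imm R s r f) :
    ball (0 : E3) 1 ⊆ {0} ∪ (Phi R s r f 1 '' DD R s r f 1 ∪
      Phi R s r f (-1) '' DD R s r f (-1)) := by
  intro y hy
  rw [mem_ball_zero_iff] at hy
  by_cases hy0 : y = 0
  · exact Or.inl hy0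
  right
  have hn : 0 < ‖y‖ := norm_pos_iff.2 hy0
  set ν : E3 := ‖y‖⁻¹ • y with hν
  have hν1 : ‖ν‖ = 1 := by
    rw [hν, norm_smul, norm_inv, norm_norm, inv_mul_cancel₀ hn.ne']
  have hyν : ‖y‖ • ν = y := by rw [hν, smul_smul, mul_inv_cancel₀ hn.ne', one_smul]
  obtain ⟨x, hx, hb0, hb1⟩ := exists_max hf ν
  obtain ⟨k0, k1, -⟩ := height hf.cd ν x hx
  have hz : prL (!₂[x 0, x 1, ‖y‖] : E3) = x := by
    rw [prL_apply]; ext i; fin_cases i <;> simp
  rcases eq_nn hr hR hs0 hs1 hf x ν hν1 k0 k1 with h | h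
  · left
    refine ⟨!₂[x 0, x 1, ‖y‖], ⟨?_, hb0, hb1, hn, hy⟩, ?_⟩
    · rw [hz]
      intro q
      rw [one_smul, ← h]
      exact hx q
    · show (1 * ‖y‖) • nn R s r f (prL _) = y
      rw [hz, ← h, one_mul, hyν]
  · right
    refine ⟨!₂[x 0, x 1, ‖y‖], ⟨?_, hb0, hb1, hn, hy⟩, ?_⟩
    · rw [hz]
      intro q
      rw [neg_one_smul, ← h]
      exact hx q
    · show (-1 * ‖y‖) • nn R s r f (prL _) = y
      rw [hz, neg_one_mul, neg_smul, ← smul_neg, ← h, hyν]

/-- the torus with the scaled metric has no isometric immersion -/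
theorem no_immersion (hr : 0 < r) (hR : r < R) (hs0 : 0 < s) (hs1 : s < 1) (hf : Imm R s r f) :
    False := by
  have hpi := Real.pi_pos
  have hD := fun σ => DD_meas hr hR hs0 hs1 hf σ
  have himg : ∀ σ : ℝ, σ ^ 2 = 1 → volume (Phi R s r f σ '' DD R s r f σ) ≤
      ∫⁻ y in DD R s r f σ, ENNReal.ofReal (∏ i, FF s i (y i)) := by
    intro σ hσ
    refine (addHaar_image_le_lintegral_abs_det_fderiv volume (hD σ)
      fun y _ => (Phi_fderiv hr hR hs0 hs1 hf σ y).hasFDerivWithinAt).trans ?_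
    refine setLIntegral_mono_ae' (hD σ) (Filter.Eventually.of_forall fun y hy => ?_)
    apply ENNReal.ofReal_le_ofReal
    obtain ⟨h1, h2, h3, h4⟩ := hy
    have hc := SS_cos hr hR hs0 hs1 hf σ hσ _ h1
    have hc' : 0 ≤ Real.cos (y 1) := hc
    rw [dPhi_det hr hR hs0 hs1 hf σ hσ, abs_of_nonneg (by positivity), Fin.prod_univ_three]
    have e0 : FF s 0 (y 0) = 1 :=
      indicator_of_mem (show y 0 ∈ Ico 0 (2 * Real.pi) from h2) (fun _ => (1 : ℝ))
    have e1 : FF s 1 (y 1) = s * max (Real.cos (y 1)) 0 :=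
      indicator_of_mem (show y 1 ∈ Ico 0 (2 * Real.pi) from h3)
        (fun v : ℝ => s * max (Real.cos v) 0)
    have e2 : FF s 2 (y 2) = y 2 ^ 2 :=
      indicator_of_mem (show y 2 ∈ Ioo (0 : ℝ) 1 from h4) (fun t : ℝ => t ^ 2)
    rw [e0, e1, e2, max_eq_left hc']
    linarith
  have hdisj : Disjoint (DD R s r f 1) (DD R s r f (-1)) := by
    rw [Set.disjoint_left]
    intro y h1 h2
    exact SS_disj hr hR hs0 hs1 hf _ h1.1 h2.1
  have hvol : volume (ball (0 : E3) 1) = ENNReal.ofReal (Real.pi * 4 / 3) := by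
    rw [EuclideanSpace.volume_ball_fin_three]
    simp
  have hle : volume (ball (0 : E3) 1) ≤ ENNReal.ofReal (s * (Real.pi * 4 / 3)) := by
    calc volume (ball (0 : E3) 1) ≤ volume ({0} ∪ (Phi R s r f 1 '' DD R s r f 1 ∪
          Phi R s r f (-1) '' DD R s r f (-1))) := measure_mono (cover hr hR hs0 hs1 hf)
      _ ≤ volume ({0} : Set E3) + (volume (Phi R s r f 1 '' DD R s r f 1) +
          volume (Phi R s r f (-1) '' DD R s r f (-1))) :=
        (measure_union_le _ _).trans (add_le_add_right (measure_union_le _ _) _)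
      _ ≤ 0 + ((∫⁻ y in DD R s r f 1, ENNReal.ofReal (∏ i, FF s i (y i))) +
          (∫⁻ y in DD R s r f (-1), ENNReal.ofReal (∏ i, FF s i (y i)))) := by
        refine add_le_add (by simp) (add_le_add ?_ ?_)
        · exact himg 1 (by norm_num)
        · exact himg (-1) (by norm_num)
      _ = ∫⁻ y in DD R s r f 1 ∪ DD R s r f (-1), ENNReal.ofReal (∏ i, FF s i (y i)) := by
        rw [zero_add, lintegral_union (hD (-1)) hdisj]
      _ ≤ ∫⁻ y : E3, ENNReal.ofReal (∏ i, FF s i (y i)) := setLIntegral_le_lintegral _ _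
      _ = _ := lint s hs0
  rw [hvol, ENNReal.ofReal_le_ofReal_iff (by positivity)] at hle
  nlinarith

end

end H882R2
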