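import Mathlib

set_option autoImplicit false

open scoped RealInnerProductSpace

namespace H882R2

/-- Euclidean 3-space -/
abbrev E3 := EuclideanSpace ℝ (Fin 3)

/-- the cross product -/
noncomputable def cr (x y : E3) : E3 :=
  !₂[x 1 * y 2 - x 2 * y 1, x 2 * y 0 - x 0 * y 2, x 0 * y 1 - x 1 * y 0]

theorem inner3 (x y : E3) : ⟪x, y⟫ = x 0 * y 0 + x 1 * y 1 + x 2 * y 2 := by
  simp [PiLp.inner_apply, Fin.sum_univ_three]
  ring

@[simp] theorem cr_0 (x y : E3) : cr x y 0 = x 1 * y 2 - x 2 * y 1 := rfl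
@[simp] theorem cr_1 (x y : E3) : cr x y 1 = x 2 * y 0 - x 0 * y 2 := rfl
@[simp] theorem cr_2 (x y : E3) : cr x y 2 = x 0 * y 1 - x 1 * y 0 := rfl

theorem cr_inner (x y z w : E3) : ⟪cr x y, cr z w⟫ = ⟪x, z⟫ * ⟪y, w⟫ - ⟪x, w⟫ * ⟪y, z⟫ := by
  simp only [inner3, cr_0, cr_1, cr_2]
  ring

theorem cr_self_left (x y : E3) : ⟪cr x y, x⟫ = 0 := by
  simp only [inner3, cr_0, cr_1, cr_2]
  ring

theorem cr_self_right (x y : E3) : ⟪cr x y, y⟫ = 0 := by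
  simp only [inner3, cr_0, cr_1, cr_2]
  ring

/-- product of two determinants as a Gram determinant -/
theorem det_mul_det (a b c x y z : E3) : ⟪cr a b, c⟫ * ⟪cr x y, z⟫ =
    ⟪a, x⟫ * (⟪b, y⟫ * ⟪c, z⟫ - ⟪b, z⟫ * ⟪c, y⟫) - ⟪a, y⟫ * (⟪b, x⟫ * ⟪c, z⟫ - ⟪b, z⟫ * ⟪c, x⟫)
      + ⟪a, z⟫ * (⟪b, x⟫ * ⟪c, y⟫ - ⟪b, y⟫ * ⟪c, x⟫) := by
  simp only [inner3, cr_0, cr_1, cr_2]
  ring

/-- the determinant of a linear map of Euclidean 3-space -/
theorem det_eq (L : E3 →L[ℝ] E3) : L.det =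
    ⟪cr (L (EuclideanSpace.single 0 1)) (L (EuclideanSpace.single 1 1)),
      L (EuclideanSpace.single 2 1)⟫ := by
  have h1 : L.det = LinearMap.det (L : E3 →ₗ[ℝ] E3) := rfl
  rw [h1, ← LinearMap.det_toMatrix (EuclideanSpace.basisFun (Fin 3) ℝ).toBasis,
    Matrix.det_fin_three]
  simp only [LinearMap.toMatrix_apply, OrthonormalBasis.coe_toBasis,
    OrthonormalBasis.coe_toBasis_repr_apply, EuclideanSpace.basisFun_repr,
    EuclideanSpace.basisFun_apply, inner3, cr_0, cr_1, cr_2, ContinuousLinearMap.coe_coe]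
  ring

end H882R2
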