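import Pool.Agent.Helper575.Germ.Core
import Pool.Agent.H882R2.Lin

/-! The local model: a surface of revolution with profile of scaled slope. -/

set_option autoImplicit false

open scoped RealInnerProductSpace Topology ContDiff
open MeasureTheory Metric

namespace H882R2

open H575Germ (E2 pd)

/-- evaluate partial derivatives along lines -/
theorem pd_eq {F : Type*} [NormedAddCommGroup F] [NormedSpace ℝ F] {h : E2 → F} {x : E2}
    {i : Fin 2} {y : F} (hd : DifferentiableAt ℝ h x)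
    (hl : HasDerivAt (fun t : ℝ => h (x + t • EuclideanSpace.single i 1)) y 0) : pd i h x = y := by
  unfold pd
  rw [← hd.lineDeriv_eq_fderiv, lineDeriv, hl.deriv]

theorem hasDerivAt_vec {h0 h1 h2 : ℝ → ℝ} {d0 d1 d2 t : ℝ} (H0 : HasDerivAt h0 d0 t)
    (H1 : HasDerivAt h1 d1 t) (H2 : HasDerivAt h2 d2 t) :
    HasDerivAt (fun t => (!₂[h0 t, h1 t, h2 t] : E3)) !₂[d0, d1, d2] t := by
  have h3 : HasDerivAt (fun t => (![h0 t, h1 t, h2 t] : Fin 3 → ℝ)) ![d0, d1, d2] t := by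
    rw [hasDerivAt_pi]
    intro i
    fin_cases i
    · exact H0
    · exact H1
    · exact H2
  exact ((PiLp.continuousLinearEquiv 2 ℝ (fun _ : Fin 3 => ℝ)).symm.hasFDerivAt).comp_hasDerivAt t h3

theorem shift {f : ℝ → ℝ} {f' c : ℝ} (h : HasDerivAt f f' c) :
    HasDerivAt (fun t => f (c + t)) f' 0 := by
  have : HasDerivAt f f' (c + 0) := by rwa [add_zero]
  exact this.comp_const_add c 0

/-- the radius function -/
noncomputable def aa (R s r v : ℝ) : ℝ := R + s * r * Real.cos v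

/-- derivative of the height function -/
noncomputable def zd (s r v : ℝ) : ℝ := r * √(1 - s ^ 2 * Real.sin v ^ 2)

/-- the height function -/
noncomputable def zz (s r v : ℝ) : ℝ := ∫ t in (0 : ℝ)..v, zd s r t

/-- the model -/
noncomputable def XX (R s r : ℝ) (x : E2) : E3 :=
  !₂[aa R s r (x 1) * Real.cos (x 0), aa R s r (x 1) * Real.sin (x 0), zz s r (x 1)]

section
variable {R s r : ℝ}

theorem rad_pos (hs0 : 0 < s) (hs1 : s < 1) (v : ℝ) : 0 < 1 - s ^ 2 * Real.sin v ^ 2 := by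
  have h1 : Real.sin v ^ 2 ≤ 1 := Real.sin_sq_le_one v
  nlinarith [sq_nonneg (Real.sin v), sq_nonneg s]

theorem zd_contDiff (hs0 : 0 < s) (hs1 : s < 1) : ContDiff ℝ 1 (zd s r) := by
  unfold zd
  refine contDiff_const.mul (ContDiff.sqrt (by fun_prop) fun v => (rad_pos hs0 hs1 v).ne')

theorem zz_deriv (hs0 : 0 < s) (hs1 : s < 1) (v : ℝ) : HasDerivAt (zz s r) (zd s r v) v :=
  ((zd_contDiff (r := r) hs0 hs1).continuous.integral_hasStrictDerivAt 0 v).hasDerivAt

theorem zz_contDiff (hs0 : 0 < s) (hs1 : s < 1) : ContDiff ℝ 2 (zz s r) := by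
  have h : ContDiff ℝ (1 + 1) (zz s r) := by
    rw [contDiff_succ_iff_deriv]
    refine ⟨fun v => (zz_deriv hs0 hs1 v).differentiableAt, by simp, ?_⟩
    have : deriv (zz s r) = zd s r := funext fun v => (zz_deriv hs0 hs1 v).deriv
    rw [this]
    exact zd_contDiff hs0 hs1
  exact h

theorem XX_contDiff (hs0 : 0 < s) (hs1 : s < 1) : ContDiff ℝ 2 (XX R s r) := by
  rw [contDiff_euclidean]
  intro i
  fin_cases i
  · show ContDiff ℝ 2 fun x : E2 => aa R s r (x 1) * Real.cos (x 0)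
    unfold aa
    fun_prop
  · show ContDiff ℝ 2 fun x : E2 => aa R s r (x 1) * Real.sin (x 0)
    unfold aa
    fun_prop
  · show ContDiff ℝ 2 fun x : E2 => zz s r (x 1)
    exact (zz_contDiff hs0 hs1).comp (by fun_prop)

theorem aa_deriv (v : ℝ) : HasDerivAt (aa R s r) (-(s * r * Real.sin v)) v := by
  unfold aa
  exact (((Real.hasDerivAt_cos v).const_mul (s * r)).const_add R).congr_deriv (by ring)

theorem zd_deriv (hs0 : 0 < s) (hs1 : s < 1) (v : ℝ) :
    HasDerivAt (zd s r) (r * (-(s ^ 2 * (2 * Real.sin v * Real.cos v)) /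
      (2 * √(1 - s ^ 2 * Real.sin v ^ 2)))) v := by
  unfold zd
  have h1 : HasDerivAt (fun v => 1 - s ^ 2 * Real.sin v ^ 2)
      (-(s ^ 2 * (2 * Real.sin v * Real.cos v))) v := by
    exact ((((Real.hasDerivAt_sin v).pow 2).const_mul (s ^ 2)).const_sub 1).congr_deriv (by simp)
  exact (h1.sqrt (rad_pos hs0 hs1 v).ne').const_mul r

theorem sh0 (x : E2) (t : ℝ) : (x + t • (EuclideanSpace.single (0 : Fin 2) (1 : ℝ))) 0 = x 0 + t := by
  simp

theorem sh1 (x : E2) (t : ℝ) : (x + t • (EuclideanSpace.single (0 : Fin 2) (1 : ℝ))) 1 = x 1 := by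
  simp

theorem sh2 (x : E2) (t : ℝ) : (x + t • (EuclideanSpace.single (1 : Fin 2) (1 : ℝ))) 0 = x 0 := by
  simp

theorem sh3 (x : E2) (t : ℝ) : (x + t • (EuclideanSpace.single (1 : Fin 2) (1 : ℝ))) 1 = x 1 + t := by
  simp

theorem XX_0 (hs0 : 0 < s) (hs1 : s < 1) : pd 0 (XX R s r) = fun x =>
    !₂[-(aa R s r (x 1) * Real.sin (x 0)), aa R s r (x 1) * Real.cos (x 0), 0] := by
  funext x
  apply pd_eq ((XX_contDiff hs0 hs1).differentiable (by simp) x)
  unfold XX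
  simp only [sh0, sh1]
  refine hasDerivAt_vec ?_ ?_ ?_
  · exact ((shift (Real.hasDerivAt_cos (x 0))).const_mul (aa R s r (x 1))).congr_deriv (by ring)
  · exact ((shift (Real.hasDerivAt_sin (x 0))).const_mul (aa R s r (x 1))).congr_deriv (by ring)
  · exact hasDerivAt_const _ _

theorem XX_1 (hs0 : 0 < s) (hs1 : s < 1) : pd 1 (XX R s r) = fun x =>
    !₂[-(s * r * Real.sin (x 1)) * Real.cos (x 0), -(s * r * Real.sin (x 1)) * Real.sin (x 0),
      zd s r (x 1)] := by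
  funext x
  apply pd_eq ((XX_contDiff hs0 hs1).differentiable (by simp) x)
  unfold XX
  simp only [sh2, sh3]
  have h1 : HasDerivAt (fun t => aa R s r (x 1 + t)) (-(s * r * Real.sin (x 1))) 0 :=
    shift (aa_deriv (R := R) (s := s) (r := r) (x 1))
  have h2 : HasDerivAt (fun t => zz s r (x 1 + t)) (zd s r (x 1)) 0 :=
    shift (zz_deriv (r := r) hs0 hs1 (x 1))
  exact hasDerivAt_vec (h1.mul_const _) (h1.mul_const _) h2

theorem XX_00 (hs0 : 0 < s) (hs1 : s < 1) (x : E2) : pd 0 (pd 0 (XX R s r)) x =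
    !₂[-(aa R s r (x 1) * Real.cos (x 0)), -(aa R s r (x 1) * Real.sin (x 0)), 0] := by
  have hd : Differentiable ℝ (pd 0 (XX R s r)) := by
    rw [XX_0 hs0 hs1, differentiable_euclidean]
    intro i
    fin_cases i
    · show Differentiable ℝ fun x : E2 => -(aa R s r (x 1) * Real.sin (x 0))
      unfold aa
      fun_prop
    · show Differentiable ℝ fun x : E2 => (aa R s r (x 1) * Real.cos (x 0))
      unfold aa
      fun_prop
    · show Differentiable ℝ fun x : E2 => (0 : ℝ)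
      fun_prop
  apply pd_eq (hd x)
  rw [XX_0 hs0 hs1]
  simp only [sh0, sh1]
  refine hasDerivAt_vec ?_ ?_ ?_
  · exact ((shift (Real.hasDerivAt_sin (x 0))).const_mul (aa R s r (x 1))).neg
  · exact ((shift (Real.hasDerivAt_cos (x 0))).const_mul (aa R s r (x 1))).congr_deriv (by ring)
  · exact hasDerivAt_const _ _

theorem XX_1_diff (hs0 : 0 < s) (hs1 : s < 1) : Differentiable ℝ (pd 1 (XX R s r)) := by
  rw [XX_1 hs0 hs1, differentiable_euclidean]
  intro i
  fin_cases i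
  · show Differentiable ℝ fun x : E2 => -(s * r * Real.sin (x 1)) * Real.cos (x 0)
    fun_prop
  · show Differentiable ℝ fun x : E2 => -(s * r * Real.sin (x 1)) * Real.sin (x 0)
    fun_prop
  · show Differentiable ℝ fun x : E2 => zd s r (x 1)
    exact ((zd_contDiff (r := r) hs0 hs1).differentiable (by simp)).comp (by fun_prop)

theorem XX_01 (hs0 : 0 < s) (hs1 : s < 1) (x : E2) : pd 0 (pd 1 (XX R s r)) x =
    !₂[s * r * Real.sin (x 1) * Real.sin (x 0), -(s * r * Real.sin (x 1)) * Real.cos (x 0), 0] := by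
  apply pd_eq (XX_1_diff hs0 hs1 x)
  rw [XX_1 hs0 hs1]
  simp only [sh0, sh1]
  refine hasDerivAt_vec ?_ ?_ ?_
  · exact ((shift (Real.hasDerivAt_cos (x 0))).const_mul
      (-(s * r * Real.sin (x 1)))).congr_deriv (by ring)
  · exact ((shift (Real.hasDerivAt_sin (x 0))).const_mul
      (-(s * r * Real.sin (x 1)))).congr_deriv (by ring)
  · exact hasDerivAt_const _ _

theorem XX_11 (hs0 : 0 < s) (hs1 : s < 1) (x : E2) : pd 1 (pd 1 (XX R s r)) x =
    !₂[-(s * r * Real.cos (x 1)) * Real.cos (x 0), -(s * r * Real.cos (x 1)) * Real.sin (x 0),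
      r * (-(s ^ 2 * (2 * Real.sin (x 1) * Real.cos (x 1))) /
      (2 * √(1 - s ^ 2 * Real.sin (x 1) ^ 2)))] := by
  apply pd_eq (XX_1_diff hs0 hs1 x)
  rw [XX_1 hs0 hs1]
  simp only [sh2, sh3]
  have h1 : HasDerivAt (fun t => -(s * r * Real.sin (x 1 + t))) (-(s * r * Real.cos (x 1))) 0 := by
    exact ((shift (Real.hasDerivAt_sin (x 1))).const_mul (s * r)).neg
  have h2 : HasDerivAt (fun t => zd s r (x 1 + t)) (r * (-(s ^ 2 * (2 * Real.sin (x 1) *
      Real.cos (x 1))) / (2 * √(1 - s ^ 2 * Real.sin (x 1) ^ 2)))) 0 := by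
    exact shift (zd_deriv (r := r) hs0 hs1 (x 1))
  exact hasDerivAt_vec (h1.mul_const _) (h1.mul_const _) h2

theorem zd_sq (hs0 : 0 < s) (hs1 : s < 1) (v : ℝ) :
    zd s r v ^ 2 = r ^ 2 * (1 - s ^ 2 * Real.sin v ^ 2) := by
  unfold zd
  rw [mul_pow, Real.sq_sqrt (rad_pos hs0 hs1 v).le]

/-- metric of the model -/
theorem XX_metric (hs0 : 0 < s) (hs1 : s < 1) (x : E2) :
    ⟪pd 0 (XX R s r) x, pd 0 (XX R s r) x⟫ = aa R s r (x 1) ^ 2 ∧
    ⟪pd 0 (XX R s r) x, pd 1 (XX R s r) x⟫ = 0 ∧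
    ⟪pd 1 (XX R s r) x, pd 1 (XX R s r) x⟫ = r ^ 2 := by
  rw [XX_0 hs0 hs1, XX_1 hs0 hs1]
  refine ⟨?_, ?_, ?_⟩
  · rw [inner3]
    simp
    linear_combination (aa R s r (x 1)) ^ 2 * Real.sin_sq_add_cos_sq (x 0)
  · rw [inner3]
    simp
    ring
  · rw [inner3]
    have := zd_sq (r := r) hs0 hs1 (x 1)
    simp
    linear_combination this + (s * r * Real.sin (x 1)) ^ 2 * Real.sin_sq_add_cos_sq (x 0)

/-- determinant of the second fundamental form of the model -/
theorem XX_det (hr : 0 < r) (hs0 : 0 < s) (hs1 : s < 1) (x : E2) : ∃ N : E3, ‖N‖ = 1 ∧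
    (∀ i, ⟪pd i (XX R s r) x, N⟫ = 0) ∧
    ⟪pd 0 (pd 0 (XX R s r)) x, N⟫ * ⟪pd 1 (pd 1 (XX R s r)) x, N⟫ -
      ⟪pd 0 (pd 1 (XX R s r)) x, N⟫ ^ 2 = aa R s r (x 1) * (s * r * Real.cos (x 1)) := by
  have hz := zd_sq (r := r) hs0 hs1 (x 1)
  refine ⟨!₂[zd s r (x 1) / r * Real.cos (x 0), zd s r (x 1) / r * Real.sin (x 0),
    s * Real.sin (x 1)], ?_, ?_, ?_⟩
  · rw [EuclideanSpace.norm_eq, Real.sqrt_eq_one, Fin.sum_univ_three]
    simp only [Real.norm_eq_abs, sq_abs]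
    simp
    have h1 : (zd s r (x 1) / r) ^ 2 = 1 - s ^ 2 * Real.sin (x 1) ^ 2 := by
      rw [div_pow, hz]
      field_simp
    linear_combination h1 + (zd s r (x 1) / r) ^ 2 * Real.sin_sq_add_cos_sq (x 0)
  · intro i
    fin_cases i
    · show ⟪pd 0 (XX R s r) x, _⟫ = _
      rw [XX_0 hs0 hs1, inner3]
      simp
      ring
    · show ⟪pd 1 (XX R s r) x, _⟫ = _
      rw [XX_1 hs0 hs1, inner3]
      simp
      field_simp
      linear_combination (-(zd s r (x 1) * s * Real.sin (x 1))) * Real.sin_sq_add_cos_sq (x 0)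
  · rw [XX_00 hs0 hs1, XX_01 hs0 hs1, XX_11 hs0 hs1, inner3, inner3, inner3]
    have hpos := rad_pos hs0 hs1 (x 1)
    obtain ⟨q, hq⟩ : ∃ q, q = √(1 - s ^ 2 * Real.sin (x 1) ^ 2) := ⟨_, rfl⟩
    have hq0 : 0 < q := by rw [hq]; exact Real.sqrt_pos.2 hpos
    have hq2 : q ^ 2 = 1 - s ^ 2 * Real.sin (x 1) ^ 2 := by rw [hq]; exact Real.sq_sqrt hpos.le
    have hzq : zd s r (x 1) = r * q := by rw [hq]; rfl
    rw [← hq, hzq]
    simp
    have hc : Real.cos (x 0) ^ 2 = 1 - Real.sin (x 0) ^ 2 := by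
      linear_combination Real.sin_sq_add_cos_sq (x 0)
    have hcv : s ^ 2 * Real.sin (x 1) ^ 2 = 1 - q ^ 2 := by linear_combination hq2
    field_simp
    rw [hc, hcv]
    ring

end

end H882R2
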