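import Pool.Agent.H882R2.Model

/-! The unit normal of an isometric immersion of the torus with the scaled metric. -/

set_option autoImplicit false

open scoped RealInnerProductSpace Topology ContDiff
open MeasureTheory Metric

namespace H882R2

open H575Germ (E2 pd)

/-- `f` is a doubly periodic `C^2` map with first fundamental form
`(R + s r cos v)² du² + r² dv²` -/
structure Imm (R s r : ℝ) (f : E2 → E3) : Prop where
  cd : ContDiff ℝ 2 f
  per : ∀ x i, f (x + (2 * Real.pi) • EuclideanSpace.single i 1) = f x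
  m00 : ∀ x, ⟪pd 0 f x, pd 0 f x⟫ = aa R s r (x 1) ^ 2
  m01 : ∀ x, ⟪pd 0 f x, pd 1 f x⟫ = 0
  m11 : ∀ x, ⟪pd 1 f x, pd 1 f x⟫ = r ^ 2

/-- the unit normal -/
noncomputable def nn (R s r : ℝ) (f : E2 → E3) (x : E2) : E3 :=
  (1 / (aa R s r (x 1) * r)) • cr (pd 0 f x) (pd 1 f x)

theorem aa_pos {R s r : ℝ} (hr : 0 < r) (hR : r < R) (hs0 : 0 < s) (hs1 : s < 1) (v : ℝ) :
    0 < aa R s r v := by
  unfold aa
  have h1 : -1 ≤ Real.cos v := Real.neg_one_le_cos v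
  have h2 : s * r < r := by nlinarith
  have h3 : s * r * (-1) ≤ s * r * Real.cos v := mul_le_mul_of_nonneg_left h1 (by positivity)
  linarith

theorem pd_inner {g h : E2 → E3} {x : E2} (i : Fin 2) (hg : DifferentiableAt ℝ g x)
    (hh : DifferentiableAt ℝ h x) :
    pd i (fun y => ⟪g y, h y⟫) x = ⟪g x, pd i h x⟫ + ⟪pd i g x, h x⟫ := by
  unfold pd
  rw [fderiv_inner_apply ℝ hg hh]

section
variable {R s r : ℝ} {f : E2 → E3}

theorem pd_cd (hf : Imm R s r f) (i : Fin 2) : ContDiff ℝ 1 (pd i f) := by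
  have h : ContDiff ℝ (((1 : ℕ) + 1 : ℕ)) f := by exact_mod_cast hf.cd
  have := H575Germ.contDiff_pd 1 i f (by exact_mod_cast h)
  exact_mod_cast this

theorem nn_cd (hr : 0 < r) (hR : r < R) (hs0 : 0 < s) (hs1 : s < 1) (hf : Imm R s r f) :
    ContDiff ℝ 1 (nn R s r f) := by
  have h0 := contDiff_euclidean.1 (pd_cd hf 0)
  have h1 := contDiff_euclidean.1 (pd_cd hf 1)
  have ha : ContDiff ℝ 1 fun x : E2 => 1 / (aa R s r (x 1) * r) := by
    refine contDiff_const.div ?_ fun x => (mul_pos (aa_pos hr hR hs0 hs1 _) hr).ne'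
    unfold aa
    fun_prop
  refine ha.smul ?_
  rw [contDiff_euclidean]
  intro i
  fin_cases i
  · exact ((h0 1).mul (h1 2)).sub ((h0 2).mul (h1 1))
  · exact ((h0 2).mul (h1 0)).sub ((h0 0).mul (h1 2))
  · exact ((h0 0).mul (h1 1)).sub ((h0 1).mul (h1 0))

theorem nn_sq (hr : 0 < r) (hR : r < R) (hs0 : 0 < s) (hs1 : s < 1) (hf : Imm R s r f) (x : E2) :
    ⟪nn R s r f x, nn R s r f x⟫ = 1 := by
  have ha := aa_pos hr hR hs0 hs1 (x 1)
  unfold nn
  rw [real_inner_smul_left, real_inner_smul_right, cr_inner, hf.m00, hf.m11, hf.m01]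
  field_simp
  ring

theorem nn_norm (hr : 0 < r) (hR : r < R) (hs0 : 0 < s) (hs1 : s < 1) (hf : Imm R s r f) (x : E2) :
    ‖nn R s r f x‖ = 1 := by
  have h := nn_sq hr hR hs0 hs1 hf x
  rw [real_inner_self_eq_norm_sq] at h
  nlinarith [norm_nonneg (nn R s r f x)]

theorem nn_0 (x : E2) : ⟪nn R s r f x, pd 0 f x⟫ = 0 := by
  unfold nn
  rw [real_inner_smul_left, cr_self_left, mul_zero]

theorem nn_1 (x : E2) : ⟪nn R s r f x, pd 1 f x⟫ = 0 := by
  unfold nn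
  rw [real_inner_smul_left, cr_self_right, mul_zero]

/-- the Gauss equation -/
theorem gauss (hr : 0 < r) (hR : r < R) (hs0 : 0 < s) (hs1 : s < 1) (hf : Imm R s r f) (x : E2)
    (N : E3) (hN : ‖N‖ = 1) (h0 : ⟪N, pd 0 f x⟫ = 0) (h1 : ⟪N, pd 1 f x⟫ = 0) :
    ⟪pd 0 (pd 0 f) x, N⟫ * ⟪pd 1 (pd 1 f) x, N⟫ - ⟪pd 0 (pd 1 f) x, N⟫ ^ 2 =
      aa R s r (x 1) * (s * r * Real.cos (x 1)) := by
  obtain ⟨M, hM, hM0, hM1⟩ := XX_det (R := R) hr hs0 hs1 x
  rw [← hM1]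
  refine H575Germ.det_eq_of_metric f (XX R s r) hf.cd (XX_contDiff hs0 hs1) x 1 one_pos ?_ ?_ N M
    hN hM ?_ hM0
  · intro y _ i j
    obtain ⟨k0, k1, k2⟩ := XX_metric (R := R) (r := r) hs0 hs1 y
    fin_cases i <;> fin_cases j
    · exact (hf.m00 y).trans k0.symm
    · exact (hf.m01 y).trans k1.symm
    · show ⟪pd 1 f y, pd 0 f y⟫ = ⟪pd 1 (XX R s r) y, pd 0 (XX R s r) y⟫
      rw [real_inner_comm, hf.m01, real_inner_comm, k1]
    · exact (hf.m11 y).trans k2.symm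
  · apply H575Germ.J10077.li_of_gram
    rw [hf.m00, hf.m01, hf.m11]
    have := aa_pos hr hR hs0 hs1 (x 1)
    rw [zero_pow two_ne_zero, sub_zero]
    positivity
  · intro i
    fin_cases i
    · show ⟪pd 0 f x, N⟫ = 0
      rw [real_inner_comm]; exact h0
    · show ⟪pd 1 f x, N⟫ = 0
      rw [real_inner_comm]; exact h1

theorem nn_diff (hr : 0 < r) (hR : r < R) (hs0 : 0 < s) (hs1 : s < 1) (hf : Imm R s r f) (x : E2) :
    DifferentiableAt ℝ (nn R s r f) x :=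
  (nn_cd hr hR hs0 hs1 hf).differentiable (by simp) x

theorem pd_diff (hf : Imm R s r f) (i : Fin 2) (x : E2) : DifferentiableAt ℝ (pd i f) x :=
  (pd_cd hf i).differentiable (by simp) x

theorem dnn (hr : 0 < r) (hR : r < R) (hs0 : 0 < s) (hs1 : s < 1) (hf : Imm R s r f) (x : E2)
    (i j : Fin 2) : ⟪pd i (nn R s r f) x, pd j f x⟫ = -⟪pd i (pd j f) x, nn R s r f x⟫ := by
  have h1 := pd_inner (x := x) i (nn_diff hr hR hs0 hs1 hf x) (pd_diff hf j x)
  have h2 : (fun y => ⟪nn R s r f y, pd j f y⟫) = fun _ => 0 := by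
    funext y
    fin_cases j
    · exact nn_0 y
    · exact nn_1 y
  rw [h2] at h1
  have h3 : pd i (fun _ : E2 => (0 : ℝ)) x = 0 := by simp [pd]
  rw [h3, real_inner_comm] at h1
  linarith

/-- the Jacobian determinant of the normal map -/
theorem det_nn (hr : 0 < r) (hR : r < R) (hs0 : 0 < s) (hs1 : s < 1) (hf : Imm R s r f) (x : E2) :
    ⟪cr (pd 0 (nn R s r f) x) (pd 1 (nn R s r f) x), nn R s r f x⟫ = s * Real.cos (x 1) := by
  have ha := aa_pos hr hR hs0 hs1 (x 1)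
  have hg := gauss hr hR hs0 hs1 hf x (nn R s r f x) (nn_norm hr hR hs0 hs1 hf x) (nn_0 x) (nn_1 x)
  have h10 : pd 1 (pd 0 f) x = pd 0 (pd 1 f) x := by
    rw [H575Germ.pd_comm 1 0 f (by exact_mod_cast hf.cd)]
  conv_lhs => rw [nn]
  rw [real_inner_smul_right, cr_inner, dnn hr hR hs0 hs1 hf, dnn hr hR hs0 hs1 hf,
    dnn hr hR hs0 hs1 hf, dnn hr hR hs0 hs1 hf, h10]
  have : -⟪pd 0 (pd 0 f) x, nn R s r f x⟫ * -⟪pd 1 (pd 1 f) x, nn R s r f x⟫ -
      -⟪pd 0 (pd 1 f) x, nn R s r f x⟫ * -⟪pd 0 (pd 1 f) x, nn R s r f x⟫ =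
      aa R s r (x 1) * (s * r * Real.cos (x 1)) := by rw [← hg]; ring
  rw [this]
  field_simp

/-- a unit vector orthogonal to the tangent plane is plus or minus the normal -/
theorem eq_nn (hr : 0 < r) (hR : r < R) (hs0 : 0 < s) (hs1 : s < 1) (hf : Imm R s r f) (x : E2)
    (ν : E3) (hν : ‖ν‖ = 1) (h0 : ⟪pd 0 f x, ν⟫ = 0) (h1 : ⟪pd 1 f x, ν⟫ = 0) :
    ν = nn R s r f x ∨ ν = -nn R s r f x := by
  have ha := aa_pos hr hR hs0 hs1 (x 1)
  have hνν : ⟪ν, ν⟫ = 1 := by rw [real_inner_self_eq_norm_sq, hν]; norm_num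
  have hd := det_mul_det (pd 0 f x) (pd 1 f x) ν (pd 0 f x) (pd 1 f x) ν
  rw [h0, h1, hf.m00, hf.m11, hf.m01, hνν] at hd
  simp only [zero_mul, mul_one, sub_zero, add_zero] at hd
  have hk : ⟪nn R s r f x, ν⟫ ^ 2 = 1 := by
    unfold nn
    rw [real_inner_smul_left, mul_pow, pow_two ⟪cr (pd 0 f x) (pd 1 f x), ν⟫, hd]
    field_simp
  have hn := nn_norm hr hR hs0 hs1 hf x
  have hk' : (⟪nn R s r f x, ν⟫ - 1) * (⟪nn R s r f x, ν⟫ + 1) = 0 := by linear_combination hk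
  rcases mul_eq_zero.1 hk' with h | h
  · left
    have : ⟪nn R s r f x, ν⟫ = 1 := by linarith
    exact ((inner_eq_one_iff_of_norm_eq_one hn hν).1 this).symm
  · right
    have : ⟪-nn R s r f x, ν⟫ = 1 := by rw [inner_neg_left]; linarith
    exact ((inner_eq_one_iff_of_norm_eq_one (by rw [norm_neg, hn]) hν).1 this).symm

end

end H882R2
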